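import Pool.Agent.Lib.DT.T.Spec

set_option autoImplicit false

/-!
# Theorem DT, part T, module Ka: Kummer characters of order `p`
-/

open scoped Pointwise nonZeroDivisors

noncomputable section

namespace Pool.Agent.DT

open Pool.Agent.MuZ Pool.Agent.FW NumberField IsDedekindDomain
open Pool.Agent.DI (VP MP UP vl_val vl_mul vl_one vl_inv vl_div vl_pow vl_zpow vl_neg vl_unif vl_vp
  vl_mp vl_up vp_vl mp_vl)

private theorem Ka_rt (p : ℕ) (hp : 0 < p) (w : Om) : rt p w ^ p = w := by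
  classical
  have h : ∃ y : Om, y ^ p = w := IsAlgClosed.exists_pow_nat_eq w hp
  unfold rt
  rw [dif_pos h]
  exact h.choose_spec

private theorem Ka_ne (p : ℕ) (hp : 0 < p) (w y : Om) (hw : w ≠ 0) (hy : y ^ p = w) : y ≠ 0 := by
  rintro rfl
  rw [zero_pow hp.ne'] at hy
  exact hw hy.symm

private theorem Ka_pow (p : ℕ) [Fact p.Prime] (zt : Om) (h : IsPrimitiveRoot zt p) (i j : ℕ) :
    zt ^ i = zt ^ j ↔ (i : ZMod p) = j := by
  have hp : 0 < p := (Fact.out : p.Prime).pos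
  have h1 : ∀ n : ℕ, zt ^ n = zt ^ (n % p) := fun n => by
    have h2 := pow_mod_orderOf zt n
    rw [← h.eq_orderOf] at h2
    exact h2.symm
  rw [ZMod.natCast_eq_natCast_iff', h1 i, h1 j]
  constructor
  · exact fun h3 => h.pow_inj (Nat.mod_lt _ hp) (Nat.mod_lt _ hp) h3
  · exact fun h3 => by rw [h3]

/-- Two roots of the same element differ by a power of `zt`. -/
private theorem Ka_root (p : ℕ) [Fact p.Prime] (zt : Om) (h : IsPrimitiveRoot zt p) (w x y : Om)
    (hw : w ≠ 0) (hx : x ^ p = w) (hy : y ^ p = w) : ∃ i : ℕ, y = zt ^ i * x := by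
  have hp : 0 < p := (Fact.out : p.Prime).pos
  have hx0 := Ka_ne p hp w x hw hx
  have h1 : (y / x) ^ p = 1 := by
    rw [div_pow, hx, hy, div_self hw]
  have : NeZero p := ⟨hp.ne'⟩
  obtain ⟨i, -, hi⟩ := h.eq_pow_of_pow_eq_one h1
  refine ⟨i, ?_⟩
  rw [hi, div_mul_cancel₀ _ hx0]

private theorem Ka_iff (p : ℕ) [Fact p.Prime] (zt : Om) (h : IsPrimitiveRoot zt p) (w : Om)
    (d : Gal(Om/ℚ)) (hw : w ≠ 0) (hd : d w = w) (i : ℕ) :
    d (rt p w) = zt ^ i * rt p w ↔ kp p zt w d = i := by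
  classical
  have hp : 0 < p := (Fact.out : p.Prime).pos
  have hx := Ka_rt p hp w
  have hx0 := Ka_ne p hp w _ hw hx
  have hex : ∃ i : ℕ, d (rt p w) = zt ^ i * rt p w :=
    Ka_root p zt h w (rt p w) (d (rt p w)) hw hx (by rw [← map_pow, hx, hd])
  have h1 : kp p zt w d = (hex.choose : ZMod p) := by
    unfold kp
    rw [dif_pos hex]
  have h2 := hex.choose_spec
  rw [h1]
  generalize hex.choose = j at h2 ⊢
  rw [h2, mul_left_inj' hx0]
  exact Ka_pow p zt h _ _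

private theorem Ka_one (p : ℕ) [Fact p.Prime] (zt : Om) (h : IsPrimitiveRoot zt p) (w y : Om)
    (d : Gal(Om/ℚ)) (hw : w ≠ 0) (hy : y ^ p = w) (hd : d w = w) (hz : d zt = zt) :
    (∀ i : ℕ, d y = zt ^ i * y ↔ kp p zt w d = i) ∧ d y = zt ^ (kp p zt w d).val * y := by
  have hp : 0 < p := (Fact.out : p.Prime).pos
  have : NeZero p := ⟨hp.ne'⟩
  obtain ⟨m, hm⟩ := Ka_root p zt h w (rt p w) y hw (Ka_rt p hp w) hy
  have hzt : zt ≠ 0 := h.ne_zero hp.ne'
  have h1 : ∀ i : ℕ, d y = zt ^ i * y ↔ kp p zt w d = i := by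
    intro i
    rw [← Ka_iff p zt h w d hw hd i, hm, map_mul, map_pow, hz, mul_left_comm (zt ^ i)]
    exact mul_right_inj' (pow_ne_zero m hzt)
  exact ⟨h1, (h1 _).2 (ZMod.natCast_zmod_val _).symm⟩

private theorem Ka_add (p : ℕ) [Fact p.Prime] (zt : Om) (h : IsPrimitiveRoot zt p) (w : Om)
    (d e : Gal(Om/ℚ)) (hw : w ≠ 0) (hd : d w = w) (he : e w = w) (hz : d zt = zt)
    (hz' : e zt = zt) : kp p zt w (d * e) = kp p zt w d + kp p zt w e := by
  have hp : 0 < p := (Fact.out : p.Prime).pos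
  have : NeZero p := ⟨hp.ne'⟩
  have hx := Ka_rt p hp w
  have h1 := (Ka_one p zt h w _ d hw hx hd hz).2
  have h2 := (Ka_one p zt h w _ e hw hx he hz').2
  have h3 : (d * e) w = w := by rw [AlgEquiv.mul_apply, he, hd]
  have h4 : (d * e) (rt p w) = zt ^ ((kp p zt w d).val + (kp p zt w e).val) * rt p w := by
    rw [AlgEquiv.mul_apply, h2, map_mul, map_pow, hz, h1, pow_add]
    ring
  rw [(Ka_iff p zt h w (d * e) hw h3 _).1 h4]
  push_cast
  rw [ZMod.natCast_zmod_val, ZMod.natCast_zmod_val]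

private theorem Ka_conj (p : ℕ) [Fact p.Prime] (zt : Om) (h : IsPrimitiveRoot zt p) (w : Om)
    (σ d : Gal(Om/ℚ)) (c : ℕ) (hw : w ≠ 0) (hd : d (σ⁻¹ w) = σ⁻¹ w) (hz : d zt = zt)
    (hc : σ zt = zt ^ c) : kp p zt w (σ * d * σ⁻¹) = c * kp p zt (σ⁻¹ w) d := by
  have hp : 0 < p := (Fact.out : p.Prime).pos
  have : NeZero p := ⟨hp.ne'⟩
  have hss : ∀ z : Om, σ (σ⁻¹ z) = z := fun z => σ.apply_symm_apply z
  have hx := Ka_rt p hp w
  have hw' : σ⁻¹ w ≠ 0 := by
    intro h0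
    apply hw
    rw [← hss w, h0, map_zero]
  have h1 := (Ka_one p zt h (σ⁻¹ w) (σ⁻¹ (rt p w)) d hw' (by rw [← map_pow, hx]) hd hz).2
  have h3 : (σ * d * σ⁻¹) w = w := by
    rw [AlgEquiv.mul_apply, AlgEquiv.mul_apply, hd, hss]
  have h4 : (σ * d * σ⁻¹) (rt p w) = zt ^ (c * (kp p zt (σ⁻¹ w) d).val) * rt p w := by
    rw [AlgEquiv.mul_apply, AlgEquiv.mul_apply, h1, map_mul, map_pow, hc, hss, pow_mul]
  rw [(Ka_iff p zt h w _ hw h3 _).1 h4]
  push_cast
  rw [ZMod.natCast_zmod_val]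

theorem pKa : S_pKa := by
  intro p _ zt h
  have hp : 0 < p := (Fact.out : p.Prime).pos
  refine ⟨fun w y d hw hy hd hz => Ka_one p zt h w y d hw hy hd hz,
    fun w d e hw hd he hz hz' => Ka_add p zt h w d e hw hd he hz hz',
    fun w σ d c hw hd hz hc => Ka_conj p zt h w σ d c hw hd hz hc, ?_⟩
  intro F w hwF hw hztF
  have hfix : ∀ d ∈ F.fixingSubgroup, d w = w := fun d hd =>
    (IntermediateField.mem_fixingSubgroup_iff F d).1 hd w hwF
  have hfixz : ∀ d ∈ F.fixingSubgroup, d zt = zt := fun d hd =>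
    (IntermediateField.mem_fixingSubgroup_iff F d).1 hd zt hztF
  have hint : IsIntegral ℚ (rt p w) :=
    (Algebra.IsAlgebraic.isAlgebraic (R := ℚ) (rt p w)).isIntegral
  have hfin : FiniteDimensional ℚ (IntermediateField.adjoin ℚ {rt p w}) :=
    IntermediateField.adjoin.finiteDimensional hint
  refine ⟨?_, ?_, ?_, ?_⟩
  · intro g hg
    exact if_neg hg
  · intro g hg h' hh
    have hgh : g * h' ∈ F.fixingSubgroup := mul_mem hg hh
    dsimp only
    rw [if_pos hg, if_pos hh, if_pos hgh]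
    exact Ka_add p zt h w g h' hw (hfix g hg) (hfix h' hh) (hfixz g hg) (hfixz h' hh)
  · refine ⟨⟨(IntermediateField.adjoin ℚ {rt p w}).fixingSubgroup,
      (IntermediateField.adjoin ℚ {rt p w}).fixingSubgroup_isOpen⟩, ?_⟩
    intro g hg hO
    dsimp only
    rw [if_pos hg]
    have hO' : g ∈ (IntermediateField.adjoin ℚ {rt p w}).fixingSubgroup := hO
    have h5 := (IntermediateField.mem_fixingSubgroup_iff _ g).1 hO' (rt p w)
      (IntermediateField.mem_adjoin_simple_self ℚ (rt p w))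
    have h6 := (Ka_iff p zt h w g hw (hfix g hg) 0).1 (by rw [h5, pow_zero, one_mul])
    rw [h6, Nat.cast_zero]
  · intro Λ hΛ
    exact absurd hΛ (Set.notMem_empty Λ)

end Pool.Agent.DT
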