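import Pool.Agent.Lib.DI.T.TDis
import Pool.Agent.Lib.DI.T.KapV
import Pool.Agent.Lib.FW.G.Kum
import Pool.Agent.Lib.FW.G.Ine
import Pool.Agent.Lib.FW.G.Rm
import Pool.Agent.Lib.ZD.Cyc

/-!
# Theorem DT, part T (author helper66): Thaine's argument for ODD primes `p`, abstract part

`F` is a number field in `Om` which contains the primitive `p`-th root of unity `zt`, `v` a prime of `F`, `Q` a
prime of `ZZ` above `v` (`Ab F Q v`), `φ` a Frobenius element at `Q` over `F` (`IsFr F Q φ`). `kp p zt w` is the Kummer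
character of `w`: `d y = zt ^ kp(d) y` for `y ^ p = w`. For `p = 2` see `DI/T/SpecT.lean`. New for odd `p`: reciprocity
`S_REC` (proved: `Pool.Agent.FW.rec` in `FW/AsmFW2.lean`) holds at ALL primes; the density theorem only gives the Frobenius
element up to a factor `c ≠ 0` in `F_p`, which is harmless because the relation is quadratic; the primitive root of unity is
in `F`, so there is no condition on `i`.

PROVED theorems which may be used (imported by this file): `tLie : S_Lie`, `tFrE : S_FrE`, `tFrU : S_FrU`, `Pool.Agent.DI.tTDis : Pool.Agent.DI.S_TDis`,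
`tKum : S_Kum`, `tIne : S_Ine`, `tRm : S_Rm` (`FW/SpecG.lean`), the lemmas `vl_..` of `DI/T/KapV.lean` (`vl_mul`, `vl_zpow`, `vl_unif`, `vl_up`, `vl_vp`, `vl_mp`, ..),
`VP`, `MP`, `UP` of `DI/Val.lean`, `ZD.Dn_Spl`, `ZD.Dn_univ`, `ZD.Dn_deg`, `ZD.Dn.add`, `ZD.Dn.sdiff`, `ZD.Dn.union_zero`, `ZD.Dn.congr`, `ZD.Dn_subset`,
`ZD.Dn_zero_of_le`, `ZD.Dn_finite`, `ZD.finite_mem`, `ZD.finite_ram`, `ZD.mem_Spl_of_nm`, `ZD.nm_eq_of_mem_Spl`, `ZD.tendsto_log_inv`, `ZD.nm_mem`.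

RULES: every `S_pX : Prop` of this file is to be proved as `theorem pX (h1 : ..) .. : S_pX` (the statements named under
USES are explicit hypotheses, in this order) in `Pool/Agent/Lib/DT/T/X.lean`, first lines
`import Pool.Agent.Lib.DT.T.Spec`, `set_option autoImplicit false`, `open scoped Pointwise nonZeroDivisors`,
`noncomputable section`, `namespace Pool.Agent.DT`, and the `open` lines of this file. Auxiliary declarations `private`.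
-/

set_option autoImplicit false

open scoped Pointwise nonZeroDivisors

noncomputable section

namespace Pool.Agent.DT

open Pool.Agent.MuZ Pool.Agent.FW NumberField IsDedekindDomain
open Pool.Agent.DI (VP MP UP vl_val vl_mul vl_one vl_inv vl_div vl_pow vl_zpow vl_neg vl_unif vl_vp
  vl_mp vl_up vp_vl mp_vl)

/-- A chosen `p`-th root of `w`. -/
def rt (p : ℕ) (w : Om) : Om := by
  classical
  exact if h : ∃ y : Om, y ^ p = w then h.choose else 0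

/-- The Kummer character of `w` for the root of unity `zt`: `d (rt p w) = zt ^ kp * rt p w`. -/
def kp (p : ℕ) (zt w : Om) (d : Gal(Om/ℚ)) : ZMod p := by
  classical
  exact if h : ∃ i : ℕ, d (rt p w) = zt ^ i * rt p w then (h.choose : ZMod p) else 0

/-! ## Kummer characters -/

/-- **pKa** (150 lines, module `Ka`). USES: nothing. The Kummer characters `kp p zt w`.
PROOF. `Om` is algebraically closed, so `x = rt p w` satisfies `x ^ p = w` (`p > 0`), `x ≠ 0`. If `d w = w` then `(d x / x) ^ p = 1`, so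
`d x = zt ^ i x` for some `i < p` (`IsPrimitiveRoot.eq_pow_of_pow_eq_one`), and `zt ^ i = zt ^ j` iff `i = j` in `ZMod p` (`IsPrimitiveRoot.pow_inj`,
`pow_eq_pow_mod`). (1) If `y ^ p = w` then `y = zt ^ j x`, and `d zt = zt`, so `d y = zt ^ j zt ^ i x = zt ^ i y`. (2) from (1) and `d (e y) = d (zt ^ i y) = zt ^ i d y`.
(3) `y` a `p`-th root of `w`, `y' = σ⁻¹ y`, `y' ^ p = σ⁻¹ w`, `d y' = zt ^ i y'`, `i = kp (σ⁻¹ w) d`; `(σ d σ⁻¹) y = σ (zt ^ i y') = zt ^ (c i) y`. `σ d σ⁻¹` fixes `w` and `zt`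
(`σ⁻¹ zt` is a power of `zt`, so it is fixed by `d`). (4) additivity by (2); continuity: the function vanishes on the fixing subgroup of `ℚ(x)`,
which is open (see `DI/T/TKa.lean`). -/
def S_pKa : Prop :=
  ∀ (p : ℕ) [Fact p.Prime] (zt : Om), IsPrimitiveRoot zt p →
  (∀ (w y : Om) (d : Gal(Om/ℚ)), w ≠ 0 → y ^ p = w → d w = w → d zt = zt →
    (∀ i : ℕ, d y = zt ^ i * y ↔ kp p zt w d = i) ∧ d y = zt ^ (kp p zt w d).val * y) ∧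
  (∀ (w : Om) (d e : Gal(Om/ℚ)), w ≠ 0 → d w = w → e w = w → d zt = zt → e zt = zt →
    kp p zt w (d * e) = kp p zt w d + kp p zt w e) ∧
  (∀ (w : Om) (σ d : Gal(Om/ℚ)) (c : ℕ), w ≠ 0 → d (σ⁻¹ w) = σ⁻¹ w → d zt = zt →
    σ zt = zt ^ c → kp p zt w (σ * d * σ⁻¹) = c * kp p zt (σ⁻¹ w) d) ∧
  ∀ (F : IntermediateField ℚ Om) (w : Om), w ∈ F → w ≠ 0 → zt ∈ F →
    (open Classical in fun d => if d ∈ F.fixingSubgroup then kp p zt w d else 0) ∈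
      VV p ∅ F.fixingSubgroup

/-! ## Densities -/

/-- **pFl** (250 lines, module `Fl`). USES: nothing. The field of an open normal subgroup of `Gal(Om/K)`.
PROOF. Generalise `DI/T/TFl.lean` (there `W` is the kernel of `h`). `M = fixedField W`: `W` is closed (it is open in the closed subgroup `K.fixingSubgroup`), so
`M.fixingSubgroup = W`; `K ≤ M`, `M` is finite over `ℚ`, stable under `K.fixingSubgroup`. `L = M` as an extension of `K`: Galois, and `finrank K L` is the index of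
`L.fixingSubgroup` in `Gal(Om/K)` (`IntermediateField.finrank_eq_fixingSubgroup_index`), which is `W.relIndex K.fixingSubgroup` (the isomorphism `Gal(Om/K) ≃ K.fixingSubgroup`, `σ ↦ σ.restrictScalars ℚ`;
`Subgroup.index_comap`-type lemma: the homomorphism `Gal(Om/K) →* Gal(Om/ℚ)` has range `K.fixingSubgroup` and `L.fixingSubgroup` is the preimage of `W`; `Subgroup.relIndex_comap` or `Subgroup.index_comap`). Let `s_1, .., s_r` be representatives of the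
cosets `s W ≠ W` in `K.fixingSubgroup` (finitely many: `M` is finite over `ℚ`); for each choose `θ_i ∈ 𝓞 M` with `s_i θ_i ≠ θ_i` and `δ_i = s_i θ_i - θ_i ≠ 0` (in `𝓞 M`). `B = {v | ∃ w ∈ ZD.abv L v, w.asIdeal ∣ differentIdeal ..} ∪ {v | ∃ i, ∃ w ∈ ZD.abv L v, δ_i ∈ w.asIdeal}`: finite.
Let `v ∉ B`, `P` above `v`, `σ` a Frobenius element. (→) as in `TFl`: `σ ∈ W` fixes `M`, so `x ^ N v - x ∈ w` for `x ∈ 𝓞 M`, `N w ≤ N v`, `ZD.mem_Spl_of_nm`. (←) `v ∈ Spl`: `τ` a Frobenius element at `P` over `M`, `τ ∈ W`, `N w = N v`, so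
`ρ = τ⁻¹ σ ∈ P.inertia ∩ K.fixingSubgroup`; if `ρ ∉ W` then `ρ ∈ s_i W` for some `i`, `ρ θ_i = s_i θ_i`, so `δ_i ∈ P ∩ 𝓞 M = w`: contradiction. So `σ = τ ρ ∈ W`. -/
def S_pFl : Prop :=
  ∀ (K : IntermediateField ℚ Om) [NumberField K] (W : Subgroup Gal(Om/ℚ)), W ≤ K.fixingSubgroup →
    (∃ O : OpenSubgroup Gal(Om/ℚ), ∀ g ∈ K.fixingSubgroup, g ∈ O → g ∈ W) →
    (∀ σ ∈ K.fixingSubgroup, ∀ τ ∈ W, σ * τ * σ⁻¹ ∈ W) →
    ∃ (L : Type) (_ : Field L) (_ : NumberField L) (_ : Algebra K L), IsGalois K L ∧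
      Module.finrank K L = W.relIndex K.fixingSubgroup ∧
      ∃ B : Set (HeightOneSpectrum (𝓞 K)), B.Finite ∧
        ∀ v ∉ B, ∀ (P : Ideal ZZ) (σ : Gal(Om/ℚ)), Ab K P v → IsFr K P σ →
          (σ ∈ W ↔ v ∈ ZD.Spl K L)

/-- **pSel** (200 lines, module `Sel`). USES: `S_pFl`. Primes of degree one whose Frobenius element has prescribed values of finitely many characters,
up to a common factor.
PROOF. `H τ = (h i τ)_i`, `x = H φ₀ ≠ 0`. `W₁ = {τ ∈ F.fixingSubgroup | ∃ c : ZMod p, ∀ i, h i τ = c * h i φ₀}`, `W₀ = {τ ∈ F.fixingSubgroup | ∀ i, h i τ = 0}`: subgroups, open (finite intersection of the open subgroups from `VV`), normalised by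
`F.fixingSubgroup` (`h i (σ τ σ⁻¹) = h i τ`). `W₀ ≤ W₁`, and `W₀.relIndex W₁ = p`: the map `W₁ → ZMod p`, `τ ↦ c` (`c` is unique since some `h i φ₀ ≠ 0`) is a homomorphism, surjective (`φ₀ ^ j ↦ j`), with kernel `W₀`. So with `n = W₁.relIndex F.fixingSubgroup`
(finite, positive: it is a `finrank`) `W₀.relIndex F.fixingSubgroup = p n` (`Subgroup.relIndex_mul_relIndex`). `L₁`, `B₁`, `L₀`, `B₀` from `S_pFl`. `ZD.Dn_Spl`: `Spl F L₁` has density `1/n`, `Spl F L₀` has density `1/(p n)`. For `v ∉ B₀ ∪ B₁`: `v ∈ Spl F L₀ → v ∈ Spl F L₁` (a Frobenius element exists: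
`tLie.1`, `tFrE`). So `D = Spl F L₁ \ (Spl F L₀ ∪ B₀ ∪ B₁)` has density `1/n - 1/(p n) > 0` (`ZD.Dn.sdiff`, `ZD.Dn.congr`, `ZD.Dn_finite`). If there were no `v` as claimed, then `D ⊆ X ∪ {v | ¬ (nm v).Prime}` would have density `0` (`ZD.Dn_deg`, `ZD.Dn_subset`), a contradiction
to `ZD.tendsto_log_inv`. For `v ∈ D` and `P`, `φ` above `v`: `φ ∈ W₁`, `φ ∉ W₀`, so `h i φ = c h i φ₀` for all `i` and `c ≠ 0`. -/
def S_pSel : Prop :=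
  ∀ (p : ℕ) [Fact p.Prime] (F : IntermediateField ℚ Om) [NumberField F] (ι : Type) [Finite ι]
    (h : ι → Gal(Om/ℚ) → ZMod p), (∀ i, h i ∈ VV p ∅ F.fixingSubgroup) →
    ∀ φ₀ ∈ F.fixingSubgroup, (∃ i, h i φ₀ ≠ 0) →
    ∀ X : Set (HeightOneSpectrum (𝓞 F)), ZD.Dn F X 0 →
    ∃ v : HeightOneSpectrum (𝓞 F), v ∉ X ∧ (ZD.nm v).Prime ∧
      ∀ (P : Ideal ZZ) (φ : Gal(Om/ℚ)), Ab F P v → IsFr F P φ →
        ∃ c : ZMod p, c ≠ 0 ∧ ∀ i, h i φ = c * h i φ₀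

/-! ## The quadratic relation -/

/-- The output of Thaine's construction at the prime `Q`: an element `k` whose valuation is divisible by `p`
outside of the conjugates `σ Q`, and equal to `kp (σ⁻¹ u) φ` modulo `p` at `σ Q`. -/
structure KKp (p : ℕ) (F : IntermediateField ℚ Om) [NumberField F] (R : Finset Gal(Om/ℚ))
    (zt u : Om) (Q : Ideal ZZ) (φ : Gal(Om/ℚ)) (k : F) : Prop where
  ne : k ≠ 0
  ev : ∀ (v : HeightOneSpectrum (𝓞 F)) (Q' : Ideal ZZ), Ab F Q' v → (p : ZZ) ∉ Q' →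
    (∀ σ ∈ R, ¬ Ab F (σ • Q) v) → (p : ℤ) ∣ vl F v k
  od : ∀ v : HeightOneSpectrum (𝓞 F), ∀ σ ∈ R, Ab F (σ • Q) v →
    ((vl F v k : ℤ) : ZMod p) = kp p zt (σ⁻¹ u) φ

/-- The hypothesis on the unit `u`: Thaine's elements exist for all primes `Q` of degree one over `ℚ`, of norm `1` modulo `p`, prime to `M`. -/
def Thnp (p : ℕ) (F : IntermediateField ℚ Om) [NumberField F] (R : Finset Gal(Om/ℚ)) (zt u : Om)
    (M : ℕ) : Prop :=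
  ∀ (Q : Ideal ZZ) (φ : Gal(Om/ℚ)), Q.IsPrime → Q ≠ ⊥ → (M : ZZ) ∉ Q →
    (Nat.card (𝓞 F ⧸ Q.comap (iO F))).Prime → Nat.card (𝓞 F ⧸ Q.comap (iO F)) % p = 1 →
    IsFr F Q φ → ∃ k : F, KKp p F R zt u Q φ k

/-- **pRel** (120 lines, module `Rel`). USES: nothing. The sum over the conjugates of `Q`.
PROOF. The same as `DI/T/TRel.lean` with `p` instead of `2` (`Even` becomes `p ∣`: `(ZMod.intCast_zmod_eq_zero_iff_dvd _ _).2`). -/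
def S_pRel : Prop :=
  ∀ (p : ℕ) [Fact p.Prime] (F : IntermediateField ℚ Om) [NumberField F] (R : Finset Gal(Om/ℚ))
    (zt u : Om) (Q : Ideal ZZ) (φ : Gal(Om/ℚ)) (k : F) (g : Gal(Om/ℚ) → ZMod p)
    (a : HeightOneSpectrum (𝓞 F) → ZMod p),
    (∀ σ ∈ R, ∀ x ∈ F, σ x ∈ F) → Q.IsPrime → Q ≠ ⊥ → IsFr F Q φ → KKp p F R zt u Q φ k →
    (∀ σ ∈ R, ∀ τ ∈ R, (σ • Q).comap (iO F) = (τ • Q).comap (iO F) → σ = τ) →
    ClCh p F a → (∀ v : HeightOneSpectrum (𝓞 F), (p : 𝓞 F) ∈ v.asIdeal → a v = 0) →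
    (∀ σ ∈ R, ∀ (v : HeightOneSpectrum (𝓞 F)) (ψ : Gal(Om/ℚ)), Ab F (σ • Q) v →
      IsFr F (σ • Q) ψ → a v = g ψ) →
    ∑ σ ∈ R, kp p zt (σ⁻¹ u) φ * g (σ * φ * σ⁻¹) = 0

/-- **pQu** (200 lines, module `Qu`). USES: `S_REC`, `S_pSel`, `S_pKa`, `S_pRel`. The quadratic relation.
PROOF. Adapt `DI/T/TQu.lean`. If `g = 0` everything is `0`. `g ∈ VV p Inr F.fixingSubgroup` (`Loc p` contains all inertia groups). `S_REC` gives `a` with `ClCh p F a` and `IsArt p F g 1 a`, i.e. `a v = g σ` for all `P`, `σ` above `v`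
(`(1 : 𝓞 F) ∉ v.asIdeal`; write `((1 : ℕ) : 𝓞 F)`). If `p ∈ v` then `a v = 0`: choose `P` above `v` (`tLie.1`), `p ∈ P`, and a Frobenius element `σ` at `P` (`tFrE`), which is in the stabiliser of `P`, so `g σ = 0` (`Loc p`, second kind; see
`DI/T/TBad.lean`). Characters (index type `Option`-free: `{σ // σ ∈ R} ⊕ {σ // σ ∈ R}`), all in `VV p ∅ F.fixingSubgroup`: (i) `τ ↦ g (σ * τ * σ⁻¹)`, `σ ∈ R`; (ii) `kp (σ⁻¹ u)`, `σ ∈ R` (`S_pKa` (4); `σ⁻¹ u ∈ F`). If all of them vanish at `φ₀` then the sum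
is `0`. Otherwise `S_pSel` with `X` = the finite sets `B` of `Pool.Agent.DI.tTDis` and `{v | (p * M : 𝓞 F) ∈ v.asIdeal}` gives `v`, `Q` above `v` (`tLie.1`), `φ` (`tFrE`), `c ≠ 0`. `nm v % p = 1`: `zt` (as an element of `ZZ`) satisfies `φ zt = zt` and `φ zt - zt ^ l ∈ Q`, `l = nm v`;
so `zt (zt ^ (l-1) - 1) ∈ Q`; if `p ∤ l - 1` then `zt ^ (l-1)` is a primitive `p`-th root of unity and `zt ^ (l-1) - 1` divides `p` (the product of the `1 - zt ^ j`, `0 < j < p`, is `p`: `IsPrimitiveRoot` lemmas, or evaluate `X ^ (p-1) + .. + 1` at `1`; or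
`(zt ^ (l-1) - 1)` divides `p` as `0 = ∑ j < p, y ^ j` and `y = 1` modulo `Q` gives `p ∈ Q`), so `p ∈ Q`, contradiction to `p ∉ v`. `Thnp` gives `k`. `S_pRel`: `∑ kp (σ⁻¹ u) φ * g (σ φ σ⁻¹) = 0`, and this is `c ^ 2` times the sum at `φ₀`. -/
def S_pQu : Prop :=
  ∀ (p : ℕ) [Fact p.Prime], p ≠ 2 → ∀ (F : IntermediateField ℚ Om) [NumberField F]
    (R : Finset Gal(Om/ℚ)) (u zt : Om) (M : ℕ), (∀ σ ∈ R, ∀ x ∈ F, σ x ∈ F) →
    (∀ σ ∈ R, ∀ τ ∈ R, (∀ x ∈ F, σ x = τ x) → σ = τ) → u ∈ F → u ≠ 0 → IsPrimitiveRoot zt p →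
    zt ∈ F → M ≠ 0 → Thnp p F R zt u M → ∀ g ∈ VV p (Loc p) F.fixingSubgroup,
    ∀ φ₀ ∈ F.fixingSubgroup, ∑ σ ∈ R, kp p zt (σ⁻¹ u) φ₀ * g (σ * φ₀ * σ⁻¹) = 0

/-- **pTH** (120 lines, module `TH`). USES: `S_pQu`, `S_pKa`. THEOREM H, abstract form, `p` odd.
PROOF. `S_pQu` for `φ₀ = d * τ` and for `φ₀ = τ`: `kp (σ⁻¹ u) (d * τ) = kp (σ⁻¹ u) d + kp (σ⁻¹ u) τ` (`S_pKa` (2); `d`, `τ` fix `σ⁻¹ u ∈ F` and `zt ∈ F`) and
`g (σ * (d * τ) * σ⁻¹) = g (σ d σ⁻¹) + g (σ τ σ⁻¹) = g (σ τ σ⁻¹)`, because `σ d σ⁻¹` is in the stabiliser of `σ • P`, which contains `p`, and in `F.fixingSubgroup` (`σ F = F`), so `g` vanishes there (`Loc p`, second kind). Subtract. See `DI/T/TH.lean`, part (1). -/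
def S_pTH : Prop :=
  ∀ (p : ℕ) [Fact p.Prime], p ≠ 2 → ∀ (F : IntermediateField ℚ Om) [NumberField F]
    (R : Finset Gal(Om/ℚ)) (u zt : Om) (M : ℕ), (∀ σ ∈ R, ∀ x ∈ F, σ x ∈ F) →
    (∀ σ ∈ R, ∀ τ ∈ R, (∀ x ∈ F, σ x = τ x) → σ = τ) → u ∈ F → u ≠ 0 → IsPrimitiveRoot zt p →
    zt ∈ F → M ≠ 0 → Thnp p F R zt u M → ∀ g ∈ VV p (Loc p) F.fixingSubgroup,
    ∀ P : Ideal ZZ, P.IsPrime → (p : ZZ) ∈ P → ∀ d ∈ MulAction.stabilizer Gal(Om/ℚ) P,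
      d ∈ F.fixingSubgroup → ∀ τ ∈ F.fixingSubgroup,
        ∑ σ ∈ R, kp p zt (σ⁻¹ u) d * g (σ * τ * σ⁻¹) = 0

/-! ## Hilbert 90 and the valuations -/

/-- The data of `S_pH9`: `δ ^ p`, `k` are in `F`, `τ δ = zt ^ h(τ) δ`, `τ b = b` or `b / w` for `h τ = 0`, `1`; `b ^ p = k` up to units outside `p`, and all
`τ b / b` are units outside `p`. -/
structure H9 (p : ℕ) (F : IntermediateField ℚ Om) (zt : Om) (h : Gal(Om/ℚ) → ZMod p) (w δ b : Om)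
    (d k : F) : Prop where
  dne : δ ≠ 0
  bne : b ≠ 0
  kne : k ≠ 0
  dd : (d : Om) = δ ^ p
  hd : ∀ τ ∈ F.fixingSubgroup, τ δ = zt ^ (h τ).val * δ
  b0 : ∀ τ ∈ F.fixingSubgroup, h τ = 0 → τ b = b
  b1 : ∀ τ ∈ F.fixingSubgroup, h τ = 1 → τ b * w = b
  ub : ∀ P : Ideal ZZ, P.IsPrime → P ≠ ⊥ → (p : ZZ) ∉ P →
    (∀ τ ∈ F.fixingSubgroup, UP P (τ b * b⁻¹)) ∧ UP P ((k : Om) * (b ^ p)⁻¹)

/-- **pH9** (200 lines, module `H9`). USES: nothing. Hilbert 90.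
PROOF. `δ` from `tKum` (`VV p ∅`), `d = δ ^ p ∈ F` (fixed by `F.fixingSubgroup`, `zt ^ p = 1`; `mem_of_fixed` in `DI/T/Kap.lean`). `h ≠ 0` is a homomorphism on `F.fixingSubgroup`, so there is `τ₀ ∈ F.fixingSubgroup` with `h τ₀ = 1`. `w ≠ 0` as a factor of a product `= 1`.
`c j = ∏ i ∈ range j, (τ₀ ^ i) w`: `c 0 = 1`, `c p = 1`, `w * τ₀ (c j) = c (j + 1)`; `c j` is fixed by all `τ ∈ F.fixingSubgroup` with `h τ = 0` (`τ (τ₀ ^ i w) = τ₀ ^ i (τ₀ ^ (-i) τ τ₀ ^ i) w`) and it is a unit at all `P` not above `p` (`UP P (τ₀ ^ i w)` iff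
`UP (τ₀ ^ (-i) • P) w`: `UP.smul`-type lemma of `DI/Val.lean`). For `0 ≤ i < p` let `s i = ∑ j ∈ range p, zt ^ (i * j) * c j`. `∑ i ∈ range p, s i = p c 0 ≠ 0` (`∑ i, zt ^ (i j) = 0` for `0 < j < p`: `IsPrimitiveRoot.geom_sum_eq_zero` for the primitive root `zt ^ j`), so some
`s i ≠ 0`; `b = δ ^ i * s i`. With `τ₀ δ = zt δ`: `τ₀ b * w = zt ^ i δ ^ i ∑ j, zt ^ (i j) w τ₀ (c j) = δ ^ i ∑ j, zt ^ (i (j + 1)) c (j + 1) = b` (the term `j + 1 = p` is the term `0`). `b` is fixed by the `τ` with `h τ = 0`. If `h τ = 1` then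
`h (τ₀⁻¹ τ) = 0`, so `τ b = τ₀ b`. In general `h τ = j`, `τ b = τ₀ ^ j b = b / c j` (induction: `τ₀ (b / c j) = (b / w) / τ₀ (c j) = b / c (j + 1)`), so `τ b / b = 1 / c j` is a unit outside `p`. `k = ∏ j ∈ range p, (τ₀ ^ j) b`: in `F` (an element `τ` with `h τ = m` acts on the factors as
`τ₀ ^ m`: `τ τ₀ ^ j b = τ₀ ^ (m + j) b`, and `τ₀ ^ p b = b`; a permutation of the factors), `k = b ^ p ∏ j, 1 / c j`. -/
def S_pH9 : Prop :=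
  ∀ (p : ℕ) [Fact p.Prime] (F : IntermediateField ℚ Om) [NumberField F] (zt : Om),
    IsPrimitiveRoot zt p → zt ∈ F → ∀ h ∈ VV p ∅ F.fixingSubgroup, h ≠ 0 → ∀ w : Om,
    (∀ τ ∈ F.fixingSubgroup, h τ = 0 → τ w = w) →
    (∀ τ ∈ F.fixingSubgroup, h τ = 1 → ∏ i ∈ Finset.range p, (τ ^ i) w = 1) →
    (∀ P : Ideal ZZ, P.IsPrime → P ≠ ⊥ → (p : ZZ) ∉ P → UP P w) →
    ∃ (δ b : Om) (d k : F), H9 p F zt h w δ b d k

/-- **pUn** (150 lines, module `Un`). USES: nothing. Unramified primes. (Compare `kap_even` in `DI/T/Kap.lean`.)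
PROOF. `v` below `Q`, `t ∈ F` with `vl F v t = 1` (`vl_unif`). `tRm tIne` for `β = δ`: `p ∣ vl F v d`, `vl F v d = p j`, so `δ' = δ t ^ (-j)` satisfies `δ' ^ p = d t ^ (-p j)` of valuation `0`: `UP Q δ'` (`UP.of_pow`). Suppose `vl F v k = p n + r`, `0 < r < p`.
`b' = b t ^ (-n)`: `b' ^ p = k t ^ (-p n) * (unit)` (by `ub`), of positive valuation, so `MP Q b'` (`MP.of_pow`). Choose `τ₀ ∈ F.fixingSubgroup` with `h τ₀ = 1`. For `0 ≤ i < p` put `a i = p⁻¹ ∑ j ∈ range p, zt ^ (-(i j)) (τ₀ ^ j) b' / δ' ^ i`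
(write `(zt ^ (i * j))⁻¹`). `a i ∈ F`: `τ₀ δ' = zt δ'`, so `τ₀ (a i) = p⁻¹ ∑ zt ^ (-(i j)) (τ₀ ^ (j + 1)) b' / (zt ^ i δ' ^ i) = a i` (as `τ₀ ^ p b' = b'`, `zt ^ p = 1`), and it is fixed by the `τ` with `h τ = 0`; every `τ ∈ F.fixingSubgroup` is `τ₀ ^ m τ'` with `h τ' = 0`.
`b' = ∑ i ∈ range p, a i δ' ^ i` (interchange the sums; `∑ i, zt ^ (-(i j)) = 0` for `0 < j < p`). `(τ₀ ^ j) b' = b' * unit` (`ub`, `τ₀ t = t`) is in `MP Q`, and `p`, `δ'`, `zt` are units at `Q`, so `MP Q (a i)`, and as `a i ∈ F`: `VP Q (a i / t)`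
(see `vp_div` in `DI/T/Kap.lean`). So `VP Q (b' / t)`, `VP Q ((b' / t) ^ p)`, `VP Q (k t ^ (-p n - p))`, so `vl F v k ≥ p n + p`: contradiction. -/
def S_pUn : Prop :=
  ∀ (p : ℕ) [Fact p.Prime] (F : IntermediateField ℚ Om) [NumberField F] (zt : Om),
    IsPrimitiveRoot zt p → zt ∈ F → ∀ h ∈ VV p ∅ F.fixingSubgroup, h ≠ 0 → ∀ (w δ b : Om) (d k : F),
    H9 p F zt h w δ b d k → ∀ (v : HeightOneSpectrum (𝓞 F)) (Q : Ideal ZZ), Ab F Q v →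
    (p : ZZ) ∉ Q → (∀ ι ∈ Q.inertia Gal(Om/ℚ), ι ∈ F.fixingSubgroup → h ι = 0) →
    (p : ℤ) ∣ vl F v k

/-- **pRa** (150 lines, module `Ra`). USES: nothing. Ramified primes. (Compare `kap_ram` in `DI/T/Kap.lean`.)
PROOF. `ι ∈ Q.inertia`, `h ι ≠ 0`; a power of it (which is again in the inertia group and in `F.fixingSubgroup`) has `h = 1`; so let `h ι = 1`: `ι δ = zt δ`, `ι b * w = b`. `t ∈ F` with `vl F v t = 1`. (1) `n = vl F v d` is not divisible by `p`: otherwise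
`δ' = δ t ^ (-n/p)` is a unit at `Q`, `ι δ' = zt δ'`, and `ι δ' - δ' ∈ MP Q` (`VP.inertia`), so `MP Q (zt - 1)`, and `p ∈ Q` (`∑ j < p, zt ^ j = 0`): contradiction. (2) `κ = vl F v k`, `y = b ^ n * δ ^ (-κ)` (integer exponents): `y ^ p = (b ^ p) ^ n d ^ (-κ)` is a unit times
`k ^ n d ^ (-κ)`, of valuation `κ n - n κ = 0`; so `UP Q y` (`UP.of_pow`). `ι y = w ^ (-n) zt ^ (-κ) y`, so `w ^ (-n) zt ^ (-κ) = 1` modulo `MP Q`. If `w = zt ^ m` modulo `MP Q` (`w`, `zt` units at `Q`; `w` is a unit by `ub` for `τ = ι`) then `zt ^ (-(m n + κ)) = 1` modulo `MP Q`, and as above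
(`zt ^ e - 1 ∈ MP Q` only if `p ∣ e`) `p ∣ m n + κ`. -/
def S_pRa : Prop :=
  ∀ (p : ℕ) [Fact p.Prime] (F : IntermediateField ℚ Om) [NumberField F] (zt : Om),
    IsPrimitiveRoot zt p → zt ∈ F → ∀ h ∈ VV p ∅ F.fixingSubgroup, ∀ (w δ b : Om) (d k : F),
    H9 p F zt h w δ b d k → ∀ (v : HeightOneSpectrum (𝓞 F)) (Q : Ideal ZZ), Ab F Q v →
    (p : ZZ) ∉ Q → (∃ ι ∈ Q.inertia Gal(Om/ℚ), ι ∈ F.fixingSubgroup ∧ h ι ≠ 0) →
    ((vl F v d : ℤ) : ZMod p) ≠ 0 ∧ ∀ m : ℕ, MP Q (w - zt ^ m) →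
      ((m * vl F v d + vl F v k : ℤ) : ZMod p) = 0

/-- **pKap** (200 lines, module `Kap`). USES: `S_pH9`, `S_pUn`, `S_pRa`. The element `k`.
PROOF. `δ`, `b`, `d`, `k₀` from `S_pH9`. First part: `S_pUn` for `k₀`. Let `v₀` be the prime of `F` below `Q` (`tLie.2.1`), `e = (vl F v₀ d : ZMod p)`, `≠ 0` by `S_pRa` at `Q`. Let `σ ∈ R`, `v` below `σ • Q`. (1) `(p : ZZ) ∉ σ • Q`. The element `σ ι σ⁻¹` is in the inertia group of `σ • Q`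
(`MuZ/Conj.lean`) and in `F.fixingSubgroup`, `h (σ ι σ⁻¹) = h ι ≠ 0`. (2) Let `σ zt = zt ^ c'` (`c' : ℕ`; `IsPrimitiveRoot.eq_pow_of_pow_eq_one`). `f = σ δ * (δ ^ c')⁻¹` is in `F`: for `τ ∈ F.fixingSubgroup` let `τ' = σ⁻¹ τ σ`, `h τ' = h τ` (`h (σ τ' σ⁻¹) = h τ'`);
`τ (σ δ) = σ (τ' δ) = σ (zt ^ h(τ) δ) = zt ^ (c' h(τ)) σ δ` and `τ (δ ^ c') = zt ^ (c' h(τ)) δ ^ c'`. So `σ d = d ^ c' f ^ p` and `vl F v (σ d) = c' vl F v d + p vl F v f`. (3) `vl F v (σ d) = vl F v₀ d` (`σ` induces an automorphism of `F` which maps `v₀` to `v`): WITHOUT transport of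
valuations: let `t ∈ F`, `vl F v₀ t = 1`, `n = vl F v₀ d`; `d t ^ (-n)` is a unit at `Q`, so `σ d (σ t) ^ (-n)` is a unit at `σ • Q` (`UP.smul`), so `vl F v (σ d) = n vl F v (σ t)`; and `vl F v (σ t) = 1`: it is positive (`MP`), and if `t' ∈ F`, `vl F v t' = 1`, then `σ⁻¹ t' ∈ F` is in `MP Q`,
so `σ⁻¹ t' / t` is in `VP Q`, `t' / σ t ∈ VP (σ • Q)`, `1 ≥ vl F v (σ t)`. So `c' * (vl F v d : ZMod p) = e`. (4) `σ (zt ^ (c σ).val) = zt ^ (c' (c σ).val)`, so `S_pRa` at `σ • Q` with `m = c' (c σ).val` gives `c' c(σ) vl F v d + vl F v k₀ = 0` in `ZMod p`, i.e. `vl F v k₀ = - e c(σ)`.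
Let `r : ℕ` be a natural number with `(r : ZMod p) = - e⁻¹`; `k = k₀ ^ r`. -/
def S_pKap : Prop :=
  ∀ (p : ℕ) [Fact p.Prime] (F : IntermediateField ℚ Om) [NumberField F] (zt : Om),
    IsPrimitiveRoot zt p → zt ∈ F → ∀ h ∈ VV p ∅ F.fixingSubgroup, h ≠ 0 → ∀ w : Om,
    (∀ τ ∈ F.fixingSubgroup, h τ = 0 → τ w = w) →
    (∀ τ ∈ F.fixingSubgroup, h τ = 1 → ∏ i ∈ Finset.range p, (τ ^ i) w = 1) →
    (∀ P : Ideal ZZ, P.IsPrime → P ≠ ⊥ → (p : ZZ) ∉ P → UP P w) →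
    ∀ (R : Set Gal(Om/ℚ)) (Q : Ideal ZZ) (c : Gal(Om/ℚ) → ZMod p), Q.IsPrime → Q ≠ ⊥ →
    (p : ZZ) ∉ Q → (∀ σ ∈ R, ∀ x ∈ F, σ x ∈ F) →
    (∀ σ ∈ R, ∀ τ ∈ F.fixingSubgroup, h (σ * τ * σ⁻¹) = h τ) →
    (∃ ι ∈ Q.inertia Gal(Om/ℚ), ι ∈ F.fixingSubgroup ∧ h ι ≠ 0) →
    (∀ σ ∈ R, MP (σ • Q) (w - σ (zt ^ (c σ).val))) →
    ∃ k : F, k ≠ 0 ∧
      (∀ (v : HeightOneSpectrum (𝓞 F)) (Q' : Ideal ZZ), Ab F Q' v → (p : ZZ) ∉ Q' →
        (∀ ι ∈ Q'.inertia Gal(Om/ℚ), ι ∈ F.fixingSubgroup → h ι = 0) → (p : ℤ) ∣ vl F v k) ∧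
      ∀ σ ∈ R, ∀ v : HeightOneSpectrum (𝓞 F), Ab F (σ • Q) v → ((vl F v k : ℤ) : ZMod p) = c σ

/-- **pLeg** (80 lines, module `Leg`). USES: `S_pKa`. The congruence for the Frobenius element. (`DI.H3.tLeg` for `p = 2`.)
PROOF. `y ^ p = u`, `y ≠ 0`; `σ⁻¹ u = (σ⁻¹ y) ^ p`, `φ (σ⁻¹ y) = zt ^ c σ⁻¹ y`, `c = (kp p zt (σ⁻¹ u) φ).val` (`S_pKa` (1)), so `ψ = σ φ σ⁻¹` satisfies `ψ y = σ (zt ^ c) y`. `φ` acts on `VP Q` as the power `l` modulo `MP Q`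
(for `x ∈ VP Q`: write `x = a / s`, `a, s ∈ ZZ`, `s ∉ Q`), so `ψ x = x ^ l` modulo `MP (σ • Q)` for `x ∈ VP (σ • Q)`. `y` is a unit at `σ • Q` (`UP.of_pow`), so `ψ y - y ^ l ∈ MP (σ • Q)`, divide by `y`:
`σ (zt ^ c) - y ^ (l - 1) ∈ MP (σ • Q)` and `y ^ (l - 1) = u ^ ((l - 1)/p)` as `p ∣ l - 1`. -/
def S_pLeg : Prop :=
  ∀ (p : ℕ) [Fact p.Prime] (zt : Om), IsPrimitiveRoot zt p → ∀ (l : ℕ), l.Prime → l % p = 1 →
    ∀ (Q : Ideal ZZ), Q.IsPrime → Q ≠ ⊥ → ∀ (σ φ : Gal(Om/ℚ)) (u : Om), u ≠ 0 →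
    (∀ x : ZZ, φ • x - x ^ l ∈ Q) → φ (σ⁻¹ u) = σ⁻¹ u → φ zt = zt → UP (σ • Q) u →
    MP (σ • Q) (u ^ ((l - 1) / p) - σ (zt ^ (kp p zt (σ⁻¹ u) φ).val))

end Pool.Agent.DT
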