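import Pool.Agent.Lib.DT.T.Spec

/-!
# Theorem DT, part T, module Fl: the field of an open normal subgroup of `Gal(Om/K)`
-/

set_option autoImplicit false

open scoped Pointwise nonZeroDivisors

noncomputable section

namespace Pool.Agent.DT

open Pool.Agent.MuZ Pool.Agent.FW NumberField IsDedekindDomain
open Pool.Agent.DI (VP MP UP vl_val vl_mul vl_one vl_inv vl_div vl_pow vl_zpow vl_neg vl_unif vl_vp
  vl_mp vl_up vp_vl mp_vl)

private theorem Fl_isGalois : IsGalois ℚ Om := by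
  have h : @IsGalois ℚ _ Om _ (AlgebraicClosure.instAlgebra ℚ) :=
    @IsAlgClosure.isGalois ℚ Om _ _ (AlgebraicClosure.instAlgebra ℚ) _ _
  have hA : (DivisionRing.toRatAlgebra : Algebra ℚ Om) = AlgebraicClosure.instAlgebra ℚ :=
    Subsingleton.elim _ _
  rw [hA]
  exact h

private theorem Fl_fin (M N : IntermediateField ℚ Om) (hN : FiniteDimensional ℚ N)
    (h : M ≤ N) : FiniteDimensional ℚ M :=
  FiniteDimensional.of_injective (IntermediateField.inclusion h).toLinearMap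
    (IntermediateField.inclusion_injective h)

/-- The fixed field. -/
private theorem Fl_fld (K : IntermediateField ℚ Om) [NumberField K] (W : Subgroup Gal(Om/ℚ))
    (hWK : W ≤ K.fixingSubgroup)
    (hO : ∃ O : OpenSubgroup Gal(Om/ℚ), ∀ g ∈ K.fixingSubgroup, g ∈ O → g ∈ W)
    (hn : ∀ σ ∈ K.fixingSubgroup, ∀ τ ∈ W, σ * τ * σ⁻¹ ∈ W) :
    ∃ M : IntermediateField ℚ Om, K ≤ M ∧ FiniteDimensional ℚ M ∧
      (∀ σ ∈ K.fixingSubgroup, ∀ x ∈ M, σ x ∈ M) ∧ M.fixingSubgroup = W := by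
  have hGal : IsGalois ℚ Om := Fl_isGalois
  obtain ⟨O, hO⟩ := hO
  have hclosed : IsClosed (W : Set Gal(Om/ℚ)) := by
    rw [← isOpen_compl_iff, isOpen_iff_mem_nhds]
    intro σ hσ
    by_cases hK : σ ∈ K.fixingSubgroup
    · have hnhds : (fun x => σ⁻¹ * x) ⁻¹' (O : Set Gal(Om/ℚ)) ∈ nhds σ := by
        refine (continuous_const_mul σ⁻¹).continuousAt.preimage_mem_nhds ?_
        rw [inv_mul_cancel]
        exact O.mem_nhds_one
      refine Filter.mem_of_superset hnhds ?_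
      intro x hx hxW
      have hxO : σ⁻¹ * x ∈ O := hx
      have h5 : σ⁻¹ * x ∈ W := hO _ (mul_mem (inv_mem hK) (hWK hxW)) hxO
      refine hσ ?_
      have h6 : σ = x * (σ⁻¹ * x)⁻¹ := by group
      have h7 : x * (σ⁻¹ * x)⁻¹ ∈ W := mul_mem hxW (inv_mem h5)
      rw [← h6] at h7
      exact h7
    · have hcl : IsClosed (K.fixingSubgroup : Set Gal(Om/ℚ)) :=
        InfiniteGalois.fixingSubgroup_isClosed K
      refine Filter.mem_of_superset (hcl.isOpen_compl.mem_nhds hK) ?_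
      intro x hx hxW
      exact hx (hWK hxW)
  have hM : (IntermediateField.fixedField W).fixingSubgroup = W :=
    InfiniteGalois.fixingSubgroup_fixedField (k := ℚ) (K := Om) ⟨W, hclosed⟩
  have hfix : ∀ σ ∈ W, ∀ x ∈ IntermediateField.fixedField W, σ x = x := by
    intro σ hσ x hx
    exact (IntermediateField.mem_fixedField_iff W x).1 hx σ hσ
  refine ⟨IntermediateField.fixedField W, ?_, ?_, ?_, hM⟩
  · intro x hx
    rw [IntermediateField.mem_fixedField_iff]
    intro σ hσ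
    exact (IntermediateField.mem_fixingSubgroup_iff K σ).1 (hWK hσ) x hx
  · obtain ⟨E, hE, hEO⟩ := (krullTopology_mem_nhds_one_iff ℚ Om (O : Set Gal(Om/ℚ))).1 O.mem_nhds_one
    have hKE : FiniteDimensional ℚ (K ⊔ E : IntermediateField ℚ Om) := by
      have h5 : FiniteDimensional ℚ K := inferInstance
      exact IntermediateField.finiteDimensional_sup K E
    refine Fl_fin _ _ hKE ?_
    intro x hx
    rw [← InfiniteGalois.fixedField_fixingSubgroup (K ⊔ E), IntermediateField.mem_fixedField_iff]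
    intro σ hσ
    have e1 : σ ∈ K.fixingSubgroup := IntermediateField.fixingSubgroup_antitone (le_sup_left : K ≤ K ⊔ E) hσ
    have e2 : σ ∈ E.fixingSubgroup := IntermediateField.fixingSubgroup_antitone (le_sup_right : E ≤ K ⊔ E) hσ
    exact hfix σ (hO σ e1 (hEO e2)) x hx
  · intro σ hσ x hx
    rw [IntermediateField.mem_fixedField_iff]
    intro τ hτ
    have hmem : σ⁻¹ * τ * σ ∈ W := by
      have h5 := hn σ⁻¹ (inv_mem hσ) τ hτ
      rwa [inv_inv] at h5
    have h5 := hfix _ hmem x hx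
    have h6 : τ (σ x) = σ ((σ⁻¹ * τ * σ) x) := by
      rw [← AlgEquiv.mul_apply, ← AlgEquiv.mul_apply]
      congr 1
      group
    rw [h6, h5]

/-- Two elements which act modulo `P` as the same power differ by an element of the inertia group. -/
private theorem Fl_ker (P : Ideal ZZ) (hP : P.IsPrime) (a b : Gal(Om/ℚ)) (N : ℕ)
    (ha : ∀ x : ZZ, a • x - x ^ N ∈ P) (hb : ∀ x : ZZ, b • x - x ^ N ∈ P) :
    b⁻¹ * a ∈ P.inertia Gal(Om/ℚ) := by
  rw [AddSubgroup.mem_inertia]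
  intro x
  have h1 : a • x - b • x ∈ P := by
    have h2 := P.sub_mem (ha x) (hb x)
    rwa [sub_sub_sub_cancel_right] at h2
  have h3 : (b⁻¹ * a) • x - x = b⁻¹ • (a • x - b • x) := by
    rw [smul_sub, inv_smul_smul, mul_smul]
  rw [h3]
  have h4 := hb (b⁻¹ • (a • x - b • x))
  rw [smul_inv_smul] at h4
  have h5 := P.sub_mem h1 h4
  rw [sub_sub_cancel] at h5
  exact hP.mem_of_pow_mem N h5

/-- An automorphism `s` which does not fix `M` moves an algebraic integer of `M`. -/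
private theorem Fl_mov (K M : IntermediateField ℚ Om) [NumberField M]
    (hst : ∀ σ ∈ K.fixingSubgroup, ∀ x ∈ M, σ x ∈ M) (s : Gal(Om/ℚ)) (hs : s ∈ K.fixingSubgroup)
    (hsM : s ∉ M.fixingSubgroup) :
    ∃ δ : 𝓞 M, δ ≠ 0 ∧ ∃ θ : 𝓞 M, ∀ ρ : Gal(Om/ℚ), (∀ x : M, ρ (x : Om) = s (x : Om)) →
      ρ • iO M θ - iO M θ = iO M δ := by
  obtain ⟨θ, hθ⟩ : ∃ θ : 𝓞 M, s ((θ : M) : Om) ≠ ((θ : M) : Om) := by
    by_contra hc
    push Not at hc
    refine hsM ?_
    rw [IntermediateField.mem_fixingSubgroup_iff]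
    intro x hx
    obtain ⟨a, b, -, hab⟩ := IsFractionRing.div_surjective (A := 𝓞 M) (⟨x, hx⟩ : M)
    have h2 : x = ((a : M) : Om) / ((b : M) : Om) := by
      have h3 := congrArg (fun y : M => (y : Om)) hab
      exact h3.symm
    rw [h2, map_div₀, hc a, hc b]
  have hsM : s ((θ : M) : Om) ∈ M := hst s hs _ (θ : M).2
  have hsθ : IsIntegral ℤ (⟨s ((θ : M) : Om), hsM⟩ : M) := by
    rw [← isIntegral_algebraMap_iff (B := Om)
      (show Function.Injective (algebraMap M Om) from Subtype.val_injective)]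
    have h2 : IsIntegral ℤ ((θ : M) : Om) := (iO M θ).2
    exact h2.map (s.toAlgHom.restrictScalars ℤ)
  let θ' : 𝓞 M := ⟨⟨s ((θ : M) : Om), hsM⟩, hsθ⟩
  refine ⟨θ' - θ, ?_, θ, ?_⟩
  · intro h2
    have h3 : θ' = θ := sub_eq_zero.1 h2
    exact hθ (congrArg (fun y : 𝓞 M => ((y : M) : Om)) h3)
  · intro ρ hρ
    have h4 : ρ • iO M θ = iO M θ' := Subtype.ext (hρ (θ : M))
    rw [h4, map_sub]

/-- **The field of an open normal subgroup of `Gal(Om/K)`.** -/
theorem pFl : S_pFl := by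
  intro K hK W hWK hO hn
  obtain ⟨M, hKM, hMfin, hMst, hMW⟩ := Fl_fld K W hWK hO hn
  have hNFM : NumberField M := { to_charZero := inferInstance, to_finiteDimensional := hMfin }
  have hGQ : IsGalois ℚ Om := Fl_isGalois
  have : Normal K Om := Normal.tower_top_of_normal ℚ K Om
  have : IsGalois K Om := ⟨⟩
  let L : IntermediateField K Om := IntermediateField.extendScalars hKM
  have hL : ∀ x : Om, x ∈ L ↔ x ∈ M := fun x => IntermediateField.mem_extendScalars hKM
  have hres : ∀ σ : Gal(Om/K), (σ.restrictScalars ℚ : Gal(Om/ℚ)) ∈ K.fixingSubgroup := by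
    intro σ
    rw [IntermediateField.mem_fixingSubgroup_iff]
    intro x hx
    exact σ.commutes ⟨x, hx⟩
  have hNorm : Normal K L := by
    rw [IntermediateField.normal_iff_forall_map_le']
    rintro σ x ⟨y, hy, rfl⟩
    exact (hL _).2 (hMst _ (hres σ) _ ((hL y).1 hy))
  have hGal : IsGalois K L := ⟨⟩
  have hdeg : Module.finrank K L = W.relIndex K.fixingSubgroup := by
    rw [IntermediateField.finrank_eq_fixingSubgroup_index Om L]
    let φ : Gal(Om/K) →* Gal(Om/ℚ) :=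
      { toFun := fun σ => σ.restrictScalars ℚ
        map_one' := rfl
        map_mul' := fun _ _ => rfl }
    have hφ : W.comap φ = L.fixingSubgroup := by
      ext σ
      rw [Subgroup.mem_comap, IntermediateField.mem_fixingSubgroup_iff, ← hMW,
        IntermediateField.mem_fixingSubgroup_iff]
      constructor
      · intro h x hx
        exact h x ((hL x).1 hx)
      · intro h x hx
        exact h x ((hL x).2 hx)
    have hrg : φ.range = K.fixingSubgroup := by
      ext s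
      rw [MonoidHom.mem_range]
      constructor
      · rintro ⟨σ, rfl⟩
        exact hres σ
      · intro hs
        have hsx : ∀ x ∈ K, s x = x := (IntermediateField.mem_fixingSubgroup_iff K s).1 hs
        refine ⟨{ s with commutes' := fun x => hsx x x.2 }, ?_⟩
        ext x
        rfl
    rw [← hφ, Subgroup.index_comap, hrg]
  let algKM : Algebra K M := (IntermediateField.inclusion hKM).toRingHom.toAlgebra
  let e : L ≃ₐ[K] M :=
    { toFun := fun x => ⟨(x : Om), (hL _).1 x.2⟩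
      invFun := fun x => ⟨(x : Om), (hL _).2 x.2⟩
      left_inv := fun _ => rfl
      right_inv := fun _ => rfl
      map_mul' := fun _ _ => rfl
      map_add' := fun _ _ => rfl
      commutes' := fun _ => rfl }
  have hGKM : IsGalois K M := IsGalois.of_algEquiv e
  -- the elements moved
  have hex : ∀ φ : M →ₐ[ℚ] Om, ∃ δ : 𝓞 M, δ ≠ 0 ∧ ∀ ρ ∈ K.fixingSubgroup, ρ ∉ W →
      (∀ x : M, ρ (x : Om) = φ x) → ∃ θ : 𝓞 M, ρ • iO M θ - iO M θ = iO M δ := by
    intro φ
    by_cases hs : ∃ s ∈ K.fixingSubgroup, s ∉ W ∧ ∀ x : M, s (x : Om) = φ x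
    · obtain ⟨s, hs1, hs2, hs3⟩ := hs
      rw [← hMW] at hs2
      obtain ⟨δ, hδ, θ, hθ⟩ := Fl_mov K M hMst s hs1 hs2
      exact ⟨δ, hδ, fun ρ _ _ hρ => ⟨θ, hθ ρ fun x => by rw [hρ x, hs3 x]⟩⟩
    · exact ⟨1, one_ne_zero, fun ρ h1 h2 h3 => absurd ⟨ρ, h1, h2, h3⟩ hs⟩
  choose δ hδ0 hδ using hex
  have hfinH : Finite (M →ₐ[ℚ] Om) := inferInstance
  refine ⟨M, inferInstance, hNFM, algKM, hGKM, ?_,
    {v | ∃ w ∈ ZD.abv M v, w.asIdeal ∣ differentIdeal (𝓞 K) (𝓞 M)} ∪
      ⋃ φ : M →ₐ[ℚ] Om, {v | ∃ w ∈ ZD.abv M v, δ φ ∈ w.asIdeal}, ?_, ?_⟩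
  · rw [← e.toLinearEquiv.finrank_eq]
    exact hdeg
  · refine Set.Finite.union ZD.finite_ram (Set.finite_iUnion fun φ => ?_)
    refine ((ZD.finite_mem (δ φ) (hδ0 φ)).image fun w => w.under (𝓞 K)).subset ?_
    rintro v ⟨w, hw, hd⟩
    exact ⟨w, hd, hw⟩
  · intro v hv P σ hPv hσ
    obtain ⟨hP, hP0, hvc⟩ := hPv
    obtain ⟨hσK, hσ2⟩ := hσ
    obtain ⟨w, -, -, hwc⟩ := tLie.2.1 M P hP hP0
    have hw : w ∈ ZD.abv M v := by
      rw [ZD.mem_abv, hwc, hvc, Ideal.comap_comap]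
      rfl
    have hNv : Nat.card (𝓞 K ⧸ P.comap (iO K)) = ZD.nm v := by
      rw [← hvc]
      rfl
    have hNw : Nat.card (𝓞 M ⧸ P.comap (iO M)) = ZD.nm w := by
      rw [← hwc]
      rfl
    constructor
    · intro h0
      have hσM : σ ∈ M.fixingSubgroup := by rw [hMW]; exact h0
      refine ZD.mem_Spl_of_nm (fun hc => hv (Or.inl hc)) hw ?_
      refine ZD.nm_le_of_pow w (lt_of_lt_of_le one_lt_two (ZD.two_le_nm v)) fun x => ?_
      have h2 := hσ2 (iO M x)
      have h3 : σ • iO M x = iO M x := by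
        refine Subtype.ext ?_
        exact (IntermediateField.mem_fixingSubgroup_iff M _).1 hσM _ (x : M).2
      rw [h3, hNv] at h2
      rw [hwc, Ideal.mem_comap, map_sub, map_pow]
      have h4 := P.neg_mem h2
      rwa [neg_sub] at h4
    · intro hsp
      obtain ⟨τ, hτM, hτ⟩ := tFrE M P hP hP0
      have hτW : τ ∈ W := by rw [← hMW]; exact hτM
      have hnm := ZD.nm_eq_of_mem_Spl hsp hw
      rw [hNw, hnm, ← hNv] at hτ
      have hρ := Fl_ker P hP σ τ _ hσ2 hτ
      have hρK : τ⁻¹ * σ ∈ K.fixingSubgroup := mul_mem (inv_mem (hWK hτW)) hσK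
      have hρ0 : τ⁻¹ * σ ∈ W := by
        by_contra hc
        let φ : M →ₐ[ℚ] Om := ((τ⁻¹ * σ : Gal(Om/ℚ)) : Om →ₐ[ℚ] Om).comp M.val
        obtain ⟨θ, hθ⟩ := hδ φ _ hρK hc fun x => rfl
        refine hv (Or.inr (Set.mem_iUnion.2 ⟨φ, w, hw, ?_⟩))
        rw [AddSubgroup.mem_inertia] at hρ
        have h2 := hρ (iO M θ)
        rw [hθ] at h2
        rw [hwc]
        exact h2
      have h3 : σ = τ * (τ⁻¹ * σ) := by group
      rw [h3]
      exact mul_mem hτW hρ0

end Pool.Agent.DT
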