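import Pool.Agent.Lib.DT.T.Spec

set_option autoImplicit false

open scoped Pointwise nonZeroDivisors

noncomputable section

namespace Pool.Agent.DT

open Pool.Agent.MuZ Pool.Agent.FW NumberField IsDedekindDomain
open Pool.Agent.DI (VP MP UP vl_val vl_mul vl_one vl_inv vl_div vl_pow vl_zpow vl_neg vl_unif vl_vp
  vl_mp vl_up vp_vl mp_vl)

/-- An element fixed by `F.fixingSubgroup` is in `F`. -/
private theorem H9_mem {F : IntermediateField ℚ Om} {x : Om}
    (h : ∀ σ ∈ F.fixingSubgroup, σ x = x) : x ∈ F := by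
  rw [← InfiniteGalois.fixedField_fixingSubgroup F, IntermediateField.mem_fixedField_iff]
  intro σ hσ
  exact h σ hσ

/-- Conjugates of a unit outside `p` are units outside `p`. -/
private theorem H9_up {p : ℕ} {w : Om}
    (hw : ∀ P : Ideal ZZ, P.IsPrime → P ≠ ⊥ → (p : ZZ) ∉ P → UP P w) (σ : Gal(Om/ℚ))
    (P : Ideal ZZ) (hP : P.IsPrime) (hb : P ≠ ⊥) (hpP : (p : ZZ) ∉ P) : UP P (σ w) := by
  have h1 : (σ⁻¹ • P).IsPrime := Ideal.IsPrime.smul σ⁻¹
  have h2 : σ⁻¹ • P ≠ ⊥ := by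
    intro h
    refine hb (le_antisymm ?_ bot_le)
    intro x hx
    have h3 : σ⁻¹ • x ∈ σ⁻¹ • P := Ideal.smul_mem_pointwise_smul_iff.2 hx
    rw [h, Ideal.mem_bot] at h3
    rw [Ideal.mem_bot, ← smul_inv_smul σ x, h3, smul_zero]
  have h3 : (p : ZZ) ∉ σ⁻¹ • P := by
    intro h
    have h4 : σ • (p : ZZ) ∈ P := by
      have := Ideal.mem_inv_pointwise_smul_iff.1 h
      exact this
    have h5 : σ • (p : ZZ) = (p : ZZ) := map_natCast (MulSemiringAction.toRingHom _ ZZ σ) p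
    rw [h5] at h4
    exact hpP h4
  have h4 := (Pool.Agent.DI.UP.smul (P := σ⁻¹ • P) σ (x := w)).2 (hw _ h1 h2 h3)
  rwa [smul_inv_smul] at h4

theorem pH9 : S_pH9 := by
  classical
  intro p hp F _ zt hzt hztF h hh h0 w hw0 hw1 hwU
  have hpp : p.Prime := hp.out
  have hp0 : 0 < p := hpp.pos
  have : Fact (1 < p) := ⟨hpp.one_lt⟩
  set W := F.fixingSubgroup with hW
  have hfix : ∀ σ ∈ W, σ zt = zt := fun σ hσ => hσ ⟨zt, hztF⟩
  obtain ⟨δ, hδ0, hδ⟩ := tKum p W zt hzt hfix h hh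
  obtain ⟨hz, hadd, -, -⟩ := hh
  have h1 : h 1 = 0 := by
    have := hadd 1 W.one_mem 1 W.one_mem
    rw [mul_one] at this
    exact left_eq_add.1 this
  have hpow : ∀ g ∈ W, ∀ n : ℕ, h (g ^ n) = n * h g := by
    intro g hg n
    induction n with
    | zero => rw [pow_zero, h1]; simp
    | succ n ih => rw [pow_succ, hadd _ (W.pow_mem hg n) _ hg, ih]; push_cast; ring
  have hinv : ∀ g ∈ W, h g⁻¹ = - h g := by
    intro g hg
    have := hadd g hg g⁻¹ (W.inv_mem hg)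
    rw [mul_inv_cancel, h1] at this
    exact (neg_eq_of_add_eq_zero_right this.symm).symm
  obtain ⟨t, htW, ht1⟩ : ∃ t ∈ W, h t = 1 := by
    obtain ⟨g, hg⟩ : ∃ g, h g ≠ 0 := by
      by_contra hcon
      push Not at hcon
      exact h0 (funext hcon)
    have hgW : g ∈ W := by
      by_contra hcon
      exact hg (hz g hcon)
    refine ⟨g ^ ((h g)⁻¹).val, W.pow_mem hgW _, ?_⟩
    rw [hpow g hgW, ZMod.natCast_zmod_val, inv_mul_cancel₀ hg]
  have htn : ∀ n : ℕ, t ^ n ∈ W := fun n => W.pow_mem htW n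
  have hhtn : ∀ n : ℕ, h (t ^ n) = n := by
    intro n
    rw [hpow t htW, ht1, mul_one]
  let c : ℕ → Om := fun j => ∏ i ∈ Finset.range j, (t ^ i) w
  have hc0 : c 0 = 1 := Finset.prod_range_zero _
  have hcp : c p = 1 := hw1 t htW ht1
  have hc1 : ∀ j, w * t (c j) = c (j + 1) := by
    intro j
    change w * t (∏ i ∈ Finset.range j, (t ^ i) w) = ∏ i ∈ Finset.range (j + 1), (t ^ i) w
    rw [Finset.prod_range_succ', map_prod, mul_comm, pow_zero, AlgEquiv.one_apply]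
    congr 1
    refine Finset.prod_congr rfl fun i _ => ?_
    rw [pow_succ', AlgEquiv.mul_apply]
  have hck : ∀ τ ∈ W, h τ = 0 → ∀ j, τ (c j) = c j := by
    intro τ hτ hτ0 j
    change τ (∏ i ∈ Finset.range j, (t ^ i) w) = ∏ i ∈ Finset.range j, (t ^ i) w
    rw [map_prod]
    refine Finset.prod_congr rfl fun i _ => ?_
    have e1 : h ((t ^ i)⁻¹ * τ * t ^ i) = 0 := by
      rw [hadd _ (W.mul_mem (W.inv_mem (htn i)) hτ) _ (htn i), hadd _ (W.inv_mem (htn i)) _ hτ,
        hinv _ (htn i), hτ0]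
      ring
    have e2 := hw0 _ (W.mul_mem (W.mul_mem (W.inv_mem (htn i)) hτ) (htn i)) e1
    have e3 : τ * t ^ i = t ^ i * ((t ^ i)⁻¹ * τ * t ^ i) := by group
    calc τ ((t ^ i) w) = (τ * t ^ i) w := rfl
      _ = (t ^ i) (((t ^ i)⁻¹ * τ * t ^ i) w) := by rw [e3]; rfl
      _ = (t ^ i) w := by rw [e2]
  have hcU : ∀ (P : Ideal ZZ), P.IsPrime → P ≠ ⊥ → (p : ZZ) ∉ P → ∀ j, UP P (c j) := by
    intro P hP hb hpP j
    exact Pool.Agent.DI.UP.prod _ _ fun i _ => H9_up hwU (t ^ i) P hP hb hpP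
  have hw00 : w ≠ 0 := by
    intro hw
    have e : c p = 0 := by
      refine Finset.prod_eq_zero (Finset.mem_range.2 hp0) ?_
      rw [hw, map_zero]
    rw [hcp] at e
    exact one_ne_zero e
  have hcne : ∀ j, c j ≠ 0 := by
    intro j
    refine Finset.prod_ne_zero_iff.2 fun i _ => ?_
    exact (map_ne_zero (t ^ i)).2 hw00
  let s : ℕ → Om := fun i => ∑ j ∈ Finset.range p, zt ^ (i * j) * c j
  have hs : ∑ i ∈ Finset.range p, s i = p := by
    change ∑ i ∈ Finset.range p, ∑ j ∈ Finset.range p, zt ^ (i * j) * c j = p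
    rw [Finset.sum_comm, Finset.sum_eq_single 0]
    · simp [hc0]
    · intro j hj hj0
      rw [← Finset.sum_mul]
      have hj' : j < p := Finset.mem_range.1 hj
      have hcop : Nat.Coprime j p :=
        Nat.Coprime.symm ((hpp.coprime_iff_not_dvd).2 fun hd =>
          absurd (Nat.le_of_dvd (Nat.pos_of_ne_zero hj0) hd) (not_le.2 hj'))
      have e := (hzt.pow_of_coprime j hcop).geom_sum_eq_zero hpp.one_lt
      have e2 : ∑ i ∈ Finset.range p, zt ^ (i * j) = 0 := by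
        rw [← e]
        refine Finset.sum_congr rfl fun i _ => ?_
        rw [← pow_mul, mul_comm]
      rw [e2, zero_mul]
    · intro hn
      exact absurd (Finset.mem_range.2 hp0) hn
  obtain ⟨i, hi⟩ : ∃ i, s i ≠ 0 := by
    by_contra hcon
    push Not at hcon
    rw [Finset.sum_eq_zero fun i _ => hcon i] at hs
    exact hpp.ne_zero (by exact_mod_cast hs.symm)
  obtain ⟨b, hb⟩ : ∃ b, b = δ ^ i * s i := ⟨_, rfl⟩
  have hb0 : b ≠ 0 := by
    rw [hb]
    exact mul_ne_zero (pow_ne_zero _ hδ0) hi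
  have hbt : t b * w = b := by
    have e1 : t δ = zt * δ := by
      rw [hδ t htW, ht1, ZMod.val_one, pow_one]
    have e2 : w * t (s i) = ∑ j ∈ Finset.range p, zt ^ (i * j) * c (j + 1) := by
      change w * t (∑ j ∈ Finset.range p, zt ^ (i * j) * c j) = _
      rw [map_sum, Finset.mul_sum]
      refine Finset.sum_congr rfl fun j _ => ?_
      rw [map_mul, map_pow, hfix t htW, ← hc1 j]
      ring
    have e3 : zt ^ i * (∑ j ∈ Finset.range p, zt ^ (i * j) * c (j + 1)) =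
        ∑ j ∈ Finset.range p, zt ^ (i * (j + 1)) * c (j + 1) := by
      rw [Finset.mul_sum]
      refine Finset.sum_congr rfl fun j _ => ?_
      rw [mul_add, mul_one, pow_add]
      ring
    have e4 : ∑ j ∈ Finset.range p, zt ^ (i * (j + 1)) * c (j + 1) = s i := by
      have a1 := Finset.sum_range_succ' (fun j => zt ^ (i * j) * c j) p
      have a2 := Finset.sum_range_succ (fun j => zt ^ (i * j) * c j) p
      rw [a1] at a2
      have a3 : zt ^ (i * p) = 1 := by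
        rw [mul_comm, pow_mul, hzt.pow_eq_one, one_pow]
      simp only [mul_zero, pow_zero, hc0, hcp, a3, mul_one] at a2
      exact add_right_cancel a2
    rw [hb, map_mul, map_pow, e1, mul_pow]
    calc zt ^ i * δ ^ i * t (s i) * w = δ ^ i * (zt ^ i * (w * t (s i))) := by ring
      _ = δ ^ i * s i := by rw [e2, e3, e4]
  have hbk : ∀ τ ∈ W, h τ = 0 → τ b = b := by
    intro τ hτ hτ0
    have e1 : τ δ = δ := by
      rw [hδ τ hτ, hτ0, ZMod.val_zero, pow_zero, one_mul]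
    have e2 : τ (s i) = s i := by
      change τ (∑ j ∈ Finset.range p, zt ^ (i * j) * c j) =
        ∑ j ∈ Finset.range p, zt ^ (i * j) * c j
      rw [map_sum]
      refine Finset.sum_congr rfl fun j _ => ?_
      rw [map_mul, map_pow, hfix τ hτ, hck τ hτ hτ0]
    rw [hb, map_mul, map_pow, e1, e2]
  have hbj : ∀ j : ℕ, (t ^ j) b * c j = b := by
    intro j
    induction j with
    | zero => rw [pow_zero, hc0, mul_one, AlgEquiv.one_apply]
    | succ j ih =>
      calc (t ^ (j + 1)) b * c (j + 1) = t ((t ^ j) b) * (w * t (c j)) := by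
            rw [hc1, pow_succ', AlgEquiv.mul_apply]
        _ = t ((t ^ j) b * c j) * w := by rw [map_mul]; ring
        _ = b := by rw [ih, hbt]
  have hbτ : ∀ τ ∈ W, τ b = (t ^ (h τ).val) b := by
    intro τ hτ
    have e1 : h ((t ^ (h τ).val)⁻¹ * τ) = 0 := by
      rw [hadd _ (W.inv_mem (htn _)) _ hτ, hinv _ (htn _), hhtn, ZMod.natCast_zmod_val]
      ring
    have e2 := hbk _ (W.mul_mem (W.inv_mem (htn _)) hτ) e1
    have e3 : τ = t ^ (h τ).val * ((t ^ (h τ).val)⁻¹ * τ) := by group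
    calc τ b = (t ^ (h τ).val * ((t ^ (h τ).val)⁻¹ * τ)) b := by rw [← e3]
      _ = (t ^ (h τ).val) (((t ^ (h τ).val)⁻¹ * τ) b) := rfl
      _ = (t ^ (h τ).val) b := by rw [e2]
  have hbc : ∀ j : ℕ, (t ^ j) b * b⁻¹ = (c j)⁻¹ := by
    intro j
    have e := hbj j
    have e1 := hcne j
    field_simp
    exact e
  obtain ⟨k, hk⟩ : ∃ k : Om, k = ∏ x : ZMod p, (t ^ x.val) b := ⟨_, rfl⟩
  have hkF : k ∈ F := by
    refine H9_mem fun τ hτ => ?_
    rw [hk, map_prod]
    have e1 : ∀ x : ZMod p, τ ((t ^ x.val) b) = (t ^ (h τ + x).val) b := by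
      intro x
      have e2 := hbτ (τ * t ^ x.val) (W.mul_mem hτ (htn _))
      rw [hadd _ hτ _ (htn _), hhtn, ZMod.natCast_zmod_val] at e2
      exact e2
    rw [Finset.prod_congr rfl fun x _ => e1 x]
    exact Equiv.prod_comp (Equiv.addLeft (h τ)) (fun x : ZMod p => (t ^ x.val) b)
  have hkb : k * (b ^ p)⁻¹ = ∏ x : ZMod p, (c x.val)⁻¹ := by
    have e1 : (b ^ p)⁻¹ = ∏ _x : ZMod p, b⁻¹ := by
      rw [Finset.prod_const, Finset.card_univ, ZMod.card, inv_pow]
    rw [e1, hk, ← Finset.prod_mul_distrib]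
    exact Finset.prod_congr rfl fun x _ => hbc x.val
  have hk0 : k ≠ 0 := by
    rw [hk]
    exact Finset.prod_ne_zero_iff.2 fun x _ => (map_ne_zero (t ^ x.val)).2 hb0
  have hdF : δ ^ p ∈ F := by
    refine H9_mem fun τ hτ => ?_
    rw [map_pow, hδ τ hτ, mul_pow, ← pow_mul, mul_comm _ p, pow_mul, hzt.pow_eq_one, one_pow,
      one_mul]
  refine ⟨δ, b, ⟨δ ^ p, hdF⟩, ⟨k, hkF⟩, ?_⟩
  refine ⟨hδ0, hb0, fun e => hk0 (congrArg Subtype.val e), rfl, hδ, hbk, ?_, ?_⟩
  · intro τ hτ hτ1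
    rw [hbτ τ hτ, hτ1, ZMod.val_one, pow_one]
    exact hbt
  · intro P hP hPb hpP
    refine ⟨fun τ hτ => ?_, ?_⟩
    · rw [hbτ τ hτ, hbc]
      exact (hcU P hP hPb hpP _).inv
    · change UP P (k * (b ^ p)⁻¹)
      rw [hkb]
      exact Pool.Agent.DI.UP.prod _ _ fun x _ => (hcU P hP hPb hpP _).inv

end Pool.Agent.DT
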