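import Pool.Agent.Lib.DT.T.Spec

set_option autoImplicit false

/-!
# Theorem DT, part T, module Kap: the element `k`
-/

open scoped Pointwise nonZeroDivisors

noncomputable section

namespace Pool.Agent.DT

open Pool.Agent.MuZ Pool.Agent.FW NumberField IsDedekindDomain
open Pool.Agent.DI (VP MP UP vl_val vl_mul vl_one vl_inv vl_div vl_pow vl_zpow vl_neg vl_unif vl_vp
  vl_mp vl_up vp_vl mp_vl)

private theorem KP_inv (F : IntermediateField ℚ Om) [NumberField F] (σ : Gal(Om/ℚ))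
    (h : ∀ x ∈ F, σ x ∈ F) : ∀ x ∈ F, σ⁻¹ x ∈ F := by
  let f : F →ₗ[ℚ] F :=
    { toFun := fun x => ⟨σ x, h x x.2⟩
      map_add' := fun a b => Subtype.ext (by simp)
      map_smul' := fun c a => Subtype.ext (by
        change σ (c • (a : Om)) = c • σ (a : Om)
        rw [Algebra.smul_def, Algebra.smul_def, map_mul, σ.commutes]) }
  have hinj : Function.Injective f := by
    intro a b hab
    have h1 : σ (a : Om) = σ (b : Om) := congrArg Subtype.val hab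
    exact Subtype.ext (σ.injective h1)
  have hsurj : Function.Surjective f := LinearMap.injective_iff_surjective.1 hinj
  intro x hx
  obtain ⟨y, hy⟩ := hsurj ⟨x, hx⟩
  have h1 : σ (y : Om) = x := congrArg Subtype.val hy
  have h2 : σ⁻¹ (σ (y : Om)) = y := AlgEquiv.symm_apply_apply σ (y : Om)
  rw [← h1, h2]
  exact y.2

private theorem KP_fix {F : IntermediateField ℚ Om} {σ : Gal(Om/ℚ)} (h : σ ∈ F.fixingSubgroup)
    {x : Om} (hx : x ∈ F) : σ x = x :=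
  (IntermediateField.mem_fixingSubgroup_iff F σ).1 h x hx

private theorem KP_mem {F : IntermediateField ℚ Om} {x : Om}
    (h : ∀ σ ∈ F.fixingSubgroup, σ x = x) : x ∈ F := by
  rw [← InfiniteGalois.fixedField_fixingSubgroup F, IntermediateField.mem_fixedField_iff]
  intro σ hσ
  exact h σ hσ

private theorem KP_conj {F : IntermediateField ℚ Om} (σ τ : Gal(Om/ℚ))
    (h : ∀ x ∈ F, σ x ∈ F) (hτ : τ ∈ F.fixingSubgroup) : σ⁻¹ * τ * σ ∈ F.fixingSubgroup := by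
  rw [IntermediateField.mem_fixingSubgroup_iff]
  intro x hx
  have h2 : (σ⁻¹ * τ * σ) x = σ⁻¹ (τ (σ x)) := rfl
  rw [h2, KP_fix hτ (h x hx)]
  exact AlgEquiv.symm_apply_apply σ x

private theorem KP_inertia (σ : Gal(Om/ℚ)) (P : Ideal ZZ) (ρ : Gal(Om/ℚ))
    (hρ : ρ ∈ P.inertia Gal(Om/ℚ)) : σ * ρ * σ⁻¹ ∈ (σ • P).inertia Gal(Om/ℚ) := by
  intro x
  have h1 := hρ (σ⁻¹ • x)
  have h2 : σ • (ρ • σ⁻¹ • x - σ⁻¹ • x) ∈ σ • P := Ideal.smul_mem_pointwise_smul σ _ P h1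
  rw [smul_sub, smul_inv_smul] at h2
  simpa [mul_smul] using h2

private theorem KP_val (F : IntermediateField ℚ Om) [NumberField F] (σ : Gal(Om/ℚ))
    (hσ : ∀ x ∈ F, σ x ∈ F) (Q : Ideal ZZ) (v₀ v : HeightOneSpectrum (𝓞 F)) (h₀ : Ab F Q v₀)
    (h : Ab F (σ • Q) v) (x x' : F) (hx : x ≠ 0) (hx' : (x' : Om) = σ x) :
    vl F v x' = vl F v₀ x := by
  have hi := KP_inv F σ hσ
  have hT : ∀ y : F, ∃ z : F, (z : Om) = σ y := fun y => ⟨⟨σ y, hσ y y.2⟩, rfl⟩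
  have hT0 : ∀ y z : F, (z : Om) = σ y → y ≠ 0 → z ≠ 0 := by
    intro y z hz hy h0
    apply hy
    apply Subtype.ext
    apply σ.injective
    rw [← hz, h0]
    exact (map_zero σ).symm
  have hpos : ∀ y z : F, (z : Om) = σ y → y ≠ 0 → (0 < vl F v z ↔ 0 < vl F v₀ y) := by
    intro y z hz hy
    rw [← mp_vl h (hT0 y z hz hy), ← mp_vl h₀ hy, hz]
    exact DI.MP.smul σ
  have hnn : ∀ y z : F, (z : Om) = σ y → y ≠ 0 → (0 ≤ vl F v z ↔ 0 ≤ vl F v₀ y) := by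
    intro y z hz hy
    rw [← vp_vl h (hT0 y z hz hy), ← vp_vl h₀ hy, hz]
    exact DI.VP.smul σ
  have hzr : ∀ y z : F, (z : Om) = σ y → y ≠ 0 → (vl F v z = 0 ↔ vl F v₀ y = 0) := by
    intro y z hz hy
    rw [← vl_up h (hT0 y z hz hy), ← vl_up h₀ hy, hz]
    exact DI.UP.smul σ
  obtain ⟨t, ht0, ht⟩ := vl_unif v₀
  obtain ⟨t', ht0', ht'⟩ := vl_unif v
  obtain ⟨u, hu⟩ := hT t
  have hu0 := hT0 t u hu ht0
  have hs : (t' : Om) = σ ((⟨σ⁻¹ t', hi t' t'.2⟩ : F) : Om) :=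
    (AlgEquiv.apply_symm_apply σ (t' : Om)).symm
  generalize (⟨σ⁻¹ t', hi t' t'.2⟩ : F) = s at hs
  have hs0 : s ≠ 0 := by
    rintro rfl
    apply ht0'
    apply Subtype.ext
    rw [hs]
    exact map_zero σ
  have h1 : 0 < vl F v u := (hpos t u hu ht0).2 (by rw [ht]; exact one_pos)
  have h2 : 0 < vl F v₀ s := (hpos s t' hs hs0).1 (by rw [ht']; exact one_pos)
  have h3 : 0 ≤ vl F v₀ (s / t) := by
    rw [vl_div v₀ s t hs0 ht0, ht]
    omega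
  have h5 : ((t' / u : F) : Om) = σ ((s / t : F) : Om) := by
    have e1 : ((t' / u : F) : Om) = (t' : Om) / (u : Om) := rfl
    have e2 : ((s / t : F) : Om) = (s : Om) / (t : Om) := rfl
    rw [e1, e2, map_div₀, hs, hu]
  have h4 : 0 ≤ vl F v (t' / u) := (hnn _ _ h5 (div_ne_zero hs0 ht0)).2 h3
  rw [vl_div v _ _ ht0' hu0, ht'] at h4
  have h6 : vl F v u = 1 := by omega
  have hx0' := hT0 x x' hx' hx
  have e1 : vl F v₀ (x * t ^ (-(vl F v₀ x))) = 0 := by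
    rw [vl_mul v₀ x _ hx (zpow_ne_zero _ ht0), vl_zpow v₀ t ht0, ht]
    ring
  have e3 : ((x' * u ^ (-(vl F v₀ x)) : F) : Om) = σ ((x * t ^ (-(vl F v₀ x)) : F) : Om) := by
    have c1 : ∀ (a : F) (n : ℤ), ((a ^ n : F) : Om) = (a : Om) ^ n := fun a n =>
      map_zpow₀ (algebraMap F Om) a n
    rw [IntermediateField.coe_mul, IntermediateField.coe_mul, c1, c1, map_mul, map_zpow₀, hx', hu]
  have e2 : vl F v (x' * u ^ (-(vl F v₀ x))) = 0 :=
    (hzr _ _ e3 (mul_ne_zero hx (zpow_ne_zero _ ht0))).2 e1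
  rw [vl_mul v _ _ hx0' (zpow_ne_zero _ hu0), vl_zpow v _ hu0, h6] at e2
  linarith

theorem pKap (h1 : S_pH9) (h2 : S_pUn) (h3 : S_pRa) : S_pKap := by
  intro p _ F _ zt hzt hztF h hh hh0 w hw0 hw1 hwU R Q c hQ hQ0 hpQ hRF hRh hι hRw
  have hp : p.Prime := Fact.out
  obtain ⟨δ, b, d, k₀, H⟩ := h1 p F zt hzt hztF h hh hh0 w hw0 hw1 hwU
  obtain ⟨v₀, hv₀⟩ := tLie.2.1 F Q hQ hQ0
  obtain ⟨he, -⟩ := h3 p F zt hzt hztF h hh w δ b d k₀ H v₀ Q hv₀ hpQ hι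
  obtain ⟨ι, hιI, hιF, hιh⟩ := hι
  have hd0 : d ≠ 0 := by
    rintro rfl
    exact pow_ne_zero p H.dne H.dd.symm
  have key : ∀ σ ∈ R, ∀ v : HeightOneSpectrum (𝓞 F), Ab F (σ • Q) v →
      ((vl F v k₀ : ℤ) : ZMod p) = -(((vl F v₀ d : ℤ) : ZMod p) * c σ) := by
    intro σ hσ v hv
    have hpQ' : (p : ZZ) ∉ σ • Q := by
      intro h4
      have h5 : σ • (p : ZZ) = (p : ZZ) :=
        map_natCast (MulSemiringAction.toRingHom Gal(Om/ℚ) ZZ σ) p
      rw [← h5, DI.smul_mem_smul_iff] at h4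
      exact hpQ h4
    have hh' : h (σ * ι * σ⁻¹) ≠ 0 := by
      rw [hRh σ hσ ι hιF]
      exact hιh
    have hιF' : σ * ι * σ⁻¹ ∈ F.fixingSubgroup := by
      by_contra h4
      exact hh' (hh.1 _ h4)
    obtain ⟨-, hm⟩ := h3 p F zt hzt hztF h hh w δ b d k₀ H v (σ • Q) hv hpQ'
      ⟨σ * ι * σ⁻¹, KP_inertia σ Q ι hιI, hιF', hh'⟩
    -- `σ zt` is a power of `zt`
    have hpne : NeZero p := ⟨hp.ne_zero⟩
    obtain ⟨c', -, hc'⟩ := hzt.eq_pow_of_pow_eq_one (ξ := σ zt)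
      (by rw [← map_pow, hzt.pow_eq_one, map_one])
    -- `f` is in `F`
    have hfF : σ δ * (δ ^ c')⁻¹ ∈ F := by
      refine KP_mem fun τ hτ => ?_
      have hτ' := KP_conj σ τ (hRF σ hσ) hτ
      have e1 : h τ = h (σ⁻¹ * τ * σ) := by
        rw [← hRh σ hσ _ hτ']
        congr 1
        group
      have e2 : τ (σ δ) = σ ((σ⁻¹ * τ * σ) δ) := by
        change τ (σ δ) = σ (σ⁻¹ (τ (σ δ)))
        exact (AlgEquiv.apply_symm_apply σ (τ (σ δ))).symm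
      rw [map_mul, map_inv₀, map_pow, e2, H.hd _ hτ', H.hd _ hτ, ← e1, map_mul, map_pow, ← hc',
        mul_pow, ← pow_mul, ← pow_mul, mul_comm (h τ).val c', mul_inv]
      have hz : zt ^ (c' * (h τ).val) ≠ 0 := pow_ne_zero _ (hzt.ne_zero hp.ne_zero)
      field_simp
    have hTd : (⟨σ (d : Om), hRF σ hσ d d.2⟩ : F) = (⟨_, hfF⟩ : F) ^ p * d ^ c' := by
      apply Subtype.ext
      change σ (d : Om) = (σ δ * (δ ^ c')⁻¹) ^ p * (d : Om) ^ c'
      rw [H.dd, map_pow, mul_pow, ← pow_mul, inv_pow, ← pow_mul, mul_comm c' p]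
      have hz : δ ^ (p * c') ≠ 0 := pow_ne_zero _ H.dne
      rw [inv_mul_cancel_right₀ hz]
    have hf0 : (⟨_, hfF⟩ : F) ≠ 0 := by
      intro h4
      have h5 : σ δ * (δ ^ c')⁻¹ = 0 := congrArg Subtype.val h4
      refine mul_ne_zero ?_ (inv_ne_zero (pow_ne_zero _ H.dne)) h5
      intro h6
      exact H.dne ((map_eq_zero_iff σ σ.injective).1 h6)
    have e1 := KP_val F σ (hRF σ hσ) Q v₀ v hv₀ hv d _ hd0
      (show ((⟨σ (d : Om), hRF σ hσ d d.2⟩ : F) : Om) = σ d from rfl)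
    rw [hTd, vl_mul v _ _ (pow_ne_zero _ hf0) (pow_ne_zero _ hd0), vl_pow v _ hf0,
      vl_pow v _ hd0] at e1
    have e2 := congrArg (fun z : ℤ => (z : ZMod p)) e1
    simp only [Int.cast_add, Int.cast_mul, Int.cast_natCast, CharP.cast_eq_zero, zero_mul,
      zero_add] at e2
    have e3 := hm (c' * (c σ).val) (by
      have h4 := hRw σ hσ
      rw [map_pow, ← hc', ← pow_mul] at h4
      exact h4)
    rw [Int.cast_add, Int.cast_mul, Int.cast_natCast, Nat.cast_mul, ZMod.natCast_zmod_val] at e3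
    rw [← e2]
    linear_combination e3
  obtain ⟨r, hr⟩ : ∃ r : ℕ, (r : ZMod p) = -(((vl F v₀ d : ℤ) : ZMod p))⁻¹ :=
    ⟨(-(((vl F v₀ d : ℤ) : ZMod p))⁻¹).val, by rw [ZMod.natCast_val, ZMod.cast_id', id_eq]⟩
  refine ⟨k₀ ^ r, pow_ne_zero _ H.kne, ?_, ?_⟩
  · intro v Q' hv hpQ' hin
    rw [vl_pow v _ H.kne]
    exact Dvd.dvd.mul_left (h2 p F zt hzt hztF h hh hh0 w δ b d k₀ H v Q' hv hpQ' hin) _
  · intro σ hσ v hv
    rw [vl_pow v _ H.kne, Int.cast_mul, Int.cast_natCast, key σ hσ v hv, hr]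
    field_simp

end Pool.Agent.DT
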