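import Pool.Agent.Lib.DT.T.Spec

set_option autoImplicit false

/-!
# Theorem DT, part T, module Leg: the congruence for the Frobenius element
-/

open scoped Pointwise nonZeroDivisors

noncomputable section

namespace Pool.Agent.DT

open Pool.Agent.MuZ Pool.Agent.FW NumberField IsDedekindDomain
open Pool.Agent.DI (VP MP UP vl_val vl_mul vl_one vl_inv vl_div vl_pow vl_zpow vl_neg vl_unif vl_vp
  vl_mp vl_up vp_vl mp_vl)

theorem pLeg (h1 : S_pKa) : S_pLeg := by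
  intro p _ zt hzt l hl hlp Q hQ hQ0 σ φ u hu hφ hφu hφz hU
  have hp : 0 < p := (Fact.out : p.Prime).pos
  have hss : ∀ z : Om, σ (σ⁻¹ z) = z := fun z => σ.apply_symm_apply z
  have hu' : σ⁻¹ u ≠ 0 := by
    intro h0
    apply hu
    rw [← hss u, h0, map_zero]
  have hU' : UP Q (σ⁻¹ u) := by
    rw [← DI.UP.smul σ, hss]
    exact hU
  obtain ⟨z, hz⟩ : ∃ z : Om, z ^ p = σ⁻¹ u := IsAlgClosed.exists_pow_nat_eq _ hp
  have hUz : UP Q z := DI.UP.of_pow hp (by rw [hz]; exact hU')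
  have h2 := ((h1 p zt hzt).1 (σ⁻¹ u) z φ hu' hz hφu hφz).2
  have h3 := DI.VP.frob hφ hUz.1
  set c := (kp p zt (σ⁻¹ u) φ).val with hc
  set m := (l - 1) / p with hm
  have hlm : l = p * m + 1 := by
    have h4 := Nat.div_add_mod l p
    rw [hlp] at h4
    have h6 : l - 1 = p * (l / p) := by omega
    have h5 : (l - 1) / p = l / p := by
      rw [h6, Nat.mul_div_cancel_left _ hp]
    rw [hm, h5]
    exact h4.symm
  have h4 : z ^ l = z * (σ⁻¹ u) ^ m := by
    rw [hlm, pow_succ, pow_mul, hz, mul_comm]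
  rw [h2, h4] at h3
  have h5 := (DI.MP.mul_left hUz.inv.1 h3).neg
  have hz0 : z ≠ 0 := hUz.ne_zero
  have e : -(z⁻¹ * (zt ^ c * z - z * (σ⁻¹ u) ^ m)) = (σ⁻¹ u) ^ m - zt ^ c := by
    field_simp
    ring
  rw [e] at h5
  have h6 : u ^ m - σ (zt ^ c) = σ ((σ⁻¹ u) ^ m - zt ^ c) := by
    rw [map_sub, map_pow σ (σ⁻¹ u) m, hss]
  rw [h6, DI.MP.smul]
  exact h5

end Pool.Agent.DT
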