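import Pool.Agent.Lib.DT.T.Spec

/-! Theorem DT, part T: the quadratic relation (adapted from `DI/T/TQu.lean`). -/

set_option autoImplicit false

open scoped Pointwise nonZeroDivisors

noncomputable section

namespace Pool.Agent.DT

open Pool.Agent.MuZ Pool.Agent.FW NumberField IsDedekindDomain
open Pool.Agent.DI (VP MP UP vl_val vl_mul vl_one vl_inv vl_div vl_pow vl_zpow vl_neg vl_unif vl_vp
  vl_mp vl_up vp_vl mp_vl)

private theorem Qu_inv (F : IntermediateField ℚ Om) [NumberField F] (σ : Gal(Om/ℚ))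
    (h : ∀ x ∈ F, σ x ∈ F) : ∀ y ∈ F, σ⁻¹ y ∈ F := by
  intro y hy
  let f : F →ₗ[ℚ] F :=
    { toFun := fun x => ⟨σ x, h x x.2⟩
      map_add' := fun x x' => Subtype.ext (map_add σ (x : Om) (x' : Om))
      map_smul' := fun c x => Subtype.ext (by
        change σ (c • (x : Om)) = c • σ (x : Om)
        exact (AlgEquiv.toLinearMap σ).map_smul c (x : Om)) }
  have hf : Function.Injective f := by
    intro x x' e
    have e1 : σ (x : Om) = σ (x' : Om) := congrArg Subtype.val e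
    exact Subtype.ext (σ.injective e1)
  obtain ⟨x, hx⟩ := (LinearMap.injective_iff_surjective.1 hf) ⟨y, hy⟩
  have e1 : σ (x : Om) = y := congrArg Subtype.val hx
  rw [← e1]
  have e2 : σ⁻¹ (σ (x : Om)) = x := by
    rw [← AlgEquiv.mul_apply, inv_mul_cancel, AlgEquiv.one_apply]
  rw [e2]
  exact x.2

private theorem Qu_conj (F : IntermediateField ℚ Om) [NumberField F] (σ : Gal(Om/ℚ))
    (h : ∀ x ∈ F, σ x ∈ F) (τ : Gal(Om/ℚ)) :
    σ * τ * σ⁻¹ ∈ F.fixingSubgroup ↔ τ ∈ F.fixingSubgroup := by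
  have h' := Qu_inv F σ h
  rw [IntermediateField.mem_fixingSubgroup_iff, IntermediateField.mem_fixingSubgroup_iff]
  constructor
  · intro e x hx
    have e1 := e (σ x) (h x hx)
    rw [AlgEquiv.mul_apply, AlgEquiv.mul_apply] at e1
    have e2 : σ⁻¹ (σ x) = x := by
      rw [← AlgEquiv.mul_apply, inv_mul_cancel, AlgEquiv.one_apply]
    rw [e2] at e1
    exact σ.injective e1
  · intro e x hx
    rw [AlgEquiv.mul_apply, AlgEquiv.mul_apply, e _ (h' x hx), ← AlgEquiv.mul_apply,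
      mul_inv_cancel, AlgEquiv.one_apply]

private theorem Qu_VV (p : ℕ) (F : IntermediateField ℚ Om) [NumberField F] (σ : Gal(Om/ℚ))
    (h : ∀ x ∈ F, σ x ∈ F) (g : Gal(Om/ℚ) → ZMod p) (hg : g ∈ VV p (Loc p) F.fixingSubgroup) :
    (fun τ => g (σ * τ * σ⁻¹)) ∈ VV p ∅ F.fixingSubgroup := by
  obtain ⟨h1, h2, ⟨O, h3⟩, _⟩ := hg
  refine ⟨fun τ hτ => ?_, fun τ hτ ρ hρ => ?_, ?_, fun Λ hΛ => absurd hΛ (Set.notMem_empty Λ)⟩
  · exact h1 _ fun h4 => hτ ((Qu_conj F σ h τ).1 h4)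
  · have e : σ * (τ * ρ) * σ⁻¹ = (σ * τ * σ⁻¹) * (σ * ρ * σ⁻¹) := by group
    change g (σ * (τ * ρ) * σ⁻¹) = _
    rw [e]
    exact h2 _ ((Qu_conj F σ h τ).2 hτ) _ ((Qu_conj F σ h ρ).2 hρ)
  · have hc : Continuous ((MulAut.conj σ).toMonoidHom : Gal(Om/ℚ) →* Gal(Om/ℚ)) := by
      change Continuous fun τ : Gal(Om/ℚ) => σ * τ * σ⁻¹
      exact (continuous_const.mul continuous_id).mul continuous_const
    refine ⟨O.comap _ hc, fun τ hτ hO => ?_⟩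
    exact h3 _ ((Qu_conj F σ h τ).2 hτ) hO

open Classical in
private def Qu_kf (p : ℕ) (zt : Om) (F : IntermediateField ℚ Om) (w : Om) (d : Gal(Om/ℚ)) :
    ZMod p :=
  if d ∈ F.fixingSubgroup then kp p zt w d else 0

private theorem Qu_kf_of {p : ℕ} {zt : Om} {F : IntermediateField ℚ Om} (w : Om)
    {d : Gal(Om/ℚ)} (h : d ∈ F.fixingSubgroup) : Qu_kf p zt F w d = kp p zt w d := by
  unfold Qu_kf
  rw [if_pos h]

private theorem Qu_card {F : IntermediateField ℚ Om} [NumberField F]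
    {v : HeightOneSpectrum (𝓞 F)} {Q : Ideal ZZ} (h : Ab F Q v) :
    Nat.card (𝓞 F ⧸ Q.comap (iO F)) = ZD.nm v := by
  rw [← h.2.2, ZD.nm, Ideal.absNorm_apply, Submodule.cardQuot_apply]

/-- A Frobenius element at `P` is in the decomposition group of `P`. -/
private theorem Qu_stab (P : Ideal ZZ) (hP : P.IsPrime) (σ : Gal(Om/ℚ)) (q : ℕ)
    (h : ∀ x : ZZ, σ • x - x ^ q ∈ P) : σ ∈ MulAction.stabilizer Gal(Om/ℚ) P := by
  have hq : q ≠ 0 := by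
    rintro rfl
    have h1 := h 0
    rw [smul_zero, pow_zero, zero_sub] at h1
    exact hP.ne_top ((Ideal.eq_top_iff_one P).2 (by simpa using P.neg_mem h1))
  have key : ∀ y : ZZ, σ • y ∈ P ↔ y ∈ P := by
    intro y
    have h1 := h y
    constructor
    · intro h2
      have h3 := P.sub_mem h2 h1
      rw [sub_sub_cancel] at h3
      exact hP.mem_of_pow_mem q h3
    · intro h2
      have h3 := P.add_mem h1 (Ideal.pow_mem_of_mem P h2 q (Nat.pos_of_ne_zero hq))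
      rwa [sub_add_cancel] at h3
  rw [MulAction.mem_stabilizer_iff]
  ext x
  rw [Ideal.mem_pointwise_smul_iff_inv_smul_mem, ← key, smul_inv_smul]

/-- `l = 1` modulo `p`. -/
private theorem Qu_mod (p : ℕ) [hp : Fact p.Prime] {F : IntermediateField ℚ Om} [NumberField F]
    {v : HeightOneSpectrum (𝓞 F)} {Q : Ideal ZZ} (h : Ab F Q v) (h2 : (p : 𝓞 F) ∉ v.asIdeal)
    (hpv : (ZD.nm v).Prime) {φ : Gal(Om/ℚ)} (hφ : IsFr F Q φ) {zt : Om}
    (hz : IsPrimitiveRoot zt p) (hzF : zt ∈ F) : ZD.nm v % p = 1 := by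
  have hp0 : 0 < p := hp.out.pos
  have hint : IsIntegral ℤ zt := hz.isIntegral hp0
  let z : ZZ := ⟨zt, hint⟩
  have hzp : IsPrimitiveRoot z p := by
    refine IsPrimitiveRoot.of_map_of_injective (f := algebraMap ZZ Om) ?_ ?_
    · exact hz
    · exact Subtype.val_injective
  have hφz : φ • z = z := Subtype.ext ((IntermediateField.mem_fixingSubgroup_iff F φ).1 hφ.1 zt hzF)
  have h4 := hφ.2 z
  rw [Qu_card h, hφz] at h4
  have hl1 : 1 ≤ ZD.nm v := hpv.one_lt.le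
  -- the exponent `m = l - 1`
  obtain ⟨m, hm⟩ : ∃ m, ZD.nm v = m + 1 := ⟨ZD.nm v - 1, by omega⟩
  have hdiv : p ∣ m := by
    by_contra hnd
    have hcop : m.Coprime p := ((Nat.Prime.coprime_iff_not_dvd hp.out).2 hnd).symm
    have hy : IsPrimitiveRoot (z ^ m) p := hzp.pow_of_coprime m hcop
    have h5 : 1 - z ^ m ∈ Q := by
      have e1 : z ^ (p - 1) * (z - z ^ (ZD.nm v)) = 1 - z ^ m := by
        have e2 : z ^ (p - 1) * z = 1 := by
          rw [← pow_succ, Nat.sub_add_cancel hp0, hzp.pow_eq_one]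
        rw [hm, pow_succ]
        linear_combination (1 - z ^ m) * e2
      rw [← e1]
      exact Q.mul_mem_left _ h4
    have h6 : ∑ j ∈ Finset.range p, (z ^ m) ^ j = 0 := hy.geom_sum_eq_zero hp.out.one_lt
    have h7 : (p : ZZ) - ∑ j ∈ Finset.range p, (z ^ m) ^ j ∈ Q := by
      have e1 : (p : ZZ) = ∑ j ∈ Finset.range p, (1 : ZZ) := by simp
      rw [e1, ← Finset.sum_sub_distrib]
      refine Q.sum_mem fun j _ => ?_
      have h8 := sub_dvd_pow_sub_pow (1 : ZZ) (z ^ m) j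
      rw [one_pow] at h8
      exact Q.mem_of_dvd h8 h5
    rw [h6, sub_zero] at h7
    apply h2
    rw [h.2.2, Ideal.mem_comap, map_natCast]
    exact h7
  obtain ⟨r, rfl⟩ := hdiv
  rw [hm, Nat.mul_add_mod, Nat.mod_eq_of_lt hp.out.one_lt]

theorem pQu (h1 : S_REC) (h2 : S_pSel) (h3 : S_pKa) (h4 : S_pRel) : S_pQu := by
  classical
  intro p hp hp2 F _ R u zt M hR hRi hu hu0 hz hzF hM hT g hg φ₀ hφ₀
  obtain ⟨g1, g2, g3, g4⟩ := hg
  by_cases g0 : g = 0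
  · rw [g0]
    simp
  have hgI : g ∈ VV p Inr F.fixingSubgroup := ⟨g1, g2, g3, fun Λ hΛ => g4 Λ (Or.inl hΛ)⟩
  obtain ⟨a, ha, -, hart⟩ := h1 p hp2 F g hgI g0
  have hart' : ∀ (v : HeightOneSpectrum (𝓞 F)) (P : Ideal ZZ) (σ : Gal(Om/ℚ)),
      Ab F P v → IsFr F P σ → a v = g σ := by
    intro v P σ hP hσ
    refine hart v P σ ?_ hP hσ
    intro hmem
    rw [Nat.cast_one] at hmem
    exact v.isPrime.ne_top ((Ideal.eq_top_iff_one _).2 hmem)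
  have ha2 : ∀ v : HeightOneSpectrum (𝓞 F), (p : 𝓞 F) ∈ v.asIdeal → a v = 0 := by
    intro v hv
    obtain ⟨P, hP⟩ := tLie.1 F v
    obtain ⟨σ, hσ⟩ := tFrE F P hP.1 hP.2.1
    rw [hart' v P σ hP hσ]
    refine g4 (MulAction.stabilizer Gal(Om/ℚ) P) (Or.inr ⟨P, hP.1, ?_, rfl⟩) σ
      (Qu_stab P hP.1 σ _ hσ.2) hσ.1
    rw [hP.2.2, Ideal.mem_comap, map_natCast] at hv
    exact hv
  obtain ⟨B, hB, hBd⟩ := Pool.Agent.DI.tTDis F R hR hRi
  have hpM : ((p : 𝓞 F) * (M : 𝓞 F)) ≠ 0 :=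
    mul_ne_zero (Nat.cast_ne_zero.2 hp.out.ne_zero) (Nat.cast_ne_zero.2 hM)
  have hX : ZD.Dn F (B ∪ {v | (p : 𝓞 F) * (M : 𝓞 F) ∈ v.asIdeal}) 0 :=
    ZD.Dn_finite (hB.union (ZD.finite_mem _ hpM))
  -- the characters
  let h : ({σ // σ ∈ R} ⊕ {σ // σ ∈ R}) → Gal(Om/ℚ) → ZMod p := fun j =>
    match j with
    | Sum.inl σ => fun τ => g (σ.1 * τ * σ.1⁻¹)
    | Sum.inr σ => Qu_kf p zt F (σ.1⁻¹ u)
  have hσu : ∀ σ ∈ R, σ⁻¹ u ∈ F ∧ σ⁻¹ u ≠ 0 := fun σ hσ =>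
    ⟨Qu_inv F σ (hR σ hσ) u hu, fun e => hu0 (by
      have := congrArg σ e
      rw [← AlgEquiv.mul_apply, mul_inv_cancel, AlgEquiv.one_apply, map_zero] at this
      exact this)⟩
  have hh : ∀ j, h j ∈ VV p ∅ F.fixingSubgroup := by
    rintro (σ | σ)
    · exact Qu_VV p F σ.1 (hR σ.1 σ.2) g ⟨g1, g2, g3, g4⟩
    · exact (h3 p zt hz).2.2.2 F (σ.1⁻¹ u) (hσu σ.1 σ.2).1 (hσu σ.1 σ.2).2 hzF
  by_cases hex : ∃ i, h i φ₀ ≠ 0
  swap
  · push Not at hex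
    refine Finset.sum_eq_zero fun σ hσ => ?_
    have e1 : g (σ * φ₀ * σ⁻¹) = 0 := hex (Sum.inl ⟨σ, hσ⟩)
    rw [e1, mul_zero]
  obtain ⟨v, hvX, hvp, hv⟩ := h2 p F _ h hh φ₀ hφ₀ hex _ hX
  rw [Set.mem_union, not_or] at hvX
  obtain ⟨hvB, hvM⟩ := hvX
  obtain ⟨Q, hQ⟩ := tLie.1 F v
  obtain ⟨φ, hφ⟩ := tFrE F Q hQ.1 hQ.2.1
  obtain ⟨c, hc0, hval⟩ := hv Q φ hQ hφ
  have h2v : (p : 𝓞 F) ∉ v.asIdeal := fun e => hvM (Ideal.mul_mem_right _ _ e)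
  have hMv : (M : 𝓞 F) ∉ v.asIdeal := fun e => hvM (Ideal.mul_mem_left _ _ e)
  have hmod := Qu_mod p hQ h2v hvp hφ hz hzF
  have hMQ : (M : ZZ) ∉ Q := by
    intro e
    apply hMv
    rw [hQ.2.2, Ideal.mem_comap, map_natCast]
    exact e
  obtain ⟨k, hk⟩ := hT Q φ hQ.1 hQ.2.1 hMQ (by rw [Qu_card hQ]; exact hvp)
    (by rw [Qu_card hQ]; exact hmod) hφ
  have hsum := h4 p F R zt u Q φ k g a hR hQ.1 hQ.2.1 hφ hk
    (fun σ hσ τ hτ e => hBd v hvB hvp Q hQ σ hσ τ hτ e) ha ha2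
    (fun σ hσ v' ψ hv' hψ => hart' v' (σ • Q) ψ hv' hψ)
  have hsum2 : c ^ 2 * ∑ σ ∈ R, kp p zt (σ⁻¹ u) φ₀ * g (σ * φ₀ * σ⁻¹) = 0 := by
    rw [← hsum, Finset.mul_sum]
    refine Finset.sum_congr rfl fun σ hσ => ?_
    have e1 : g (σ * φ * σ⁻¹) = c * g (σ * φ₀ * σ⁻¹) := hval (Sum.inl ⟨σ, hσ⟩)
    have e2 : Qu_kf p zt F (σ⁻¹ u) φ = c * Qu_kf p zt F (σ⁻¹ u) φ₀ :=
      hval (Sum.inr ⟨σ, hσ⟩)
    rw [Qu_kf_of _ hφ.1, Qu_kf_of _ hφ₀] at e2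
    rw [e1, e2]
    ring
  exact (mul_eq_zero.1 hsum2).resolve_left (pow_ne_zero 2 hc0)

end Pool.Agent.DT
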