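import Pool.Agent.Lib.DT.T.Spec

/-! Theorem DT, part T: ramified primes (adapted from `kap_ram` in `DI/T/Kap.lean`). -/

set_option autoImplicit false

open scoped Pointwise nonZeroDivisors

noncomputable section

namespace Pool.Agent.DT

open Pool.Agent.MuZ Pool.Agent.FW NumberField IsDedekindDomain
open Pool.Agent.DI (VP MP UP vl_val vl_mul vl_one vl_inv vl_div vl_pow vl_zpow vl_neg vl_unif vl_vp
  vl_mp vl_up vp_vl mp_vl)

private theorem Ra_coe_zpow {F : IntermediateField ℚ Om} (x : F) (n : ℤ) :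
    ((x ^ n : F) : Om) = (x : Om) ^ n := map_zpow₀ (algebraMap F Om) x n

private theorem Ra_ne {F : IntermediateField ℚ Om} {x : F} (h : x ≠ 0) : (x : Om) ≠ 0 :=
  fun h1 => h (Subtype.ext h1)

private theorem Ra_fix {F : IntermediateField ℚ Om} {σ : Gal(Om/ℚ)} (h : σ ∈ F.fixingSubgroup)
    (x : F) : σ (x : Om) = x := h x

private theorem Ra_upz {Q : Ideal ZZ} (hQ : Q.IsPrime) {x : Om} (hx : UP Q x) (n : ℤ) :
    UP Q (x ^ n) := by
  cases n with
  | ofNat n =>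
    rw [Int.ofNat_eq_natCast, zpow_natCast]
    exact hx.pow n
  | negSucc n =>
    rw [zpow_negSucc]
    exact (hx.pow (n + 1)).inv

private theorem Ra_pu_mul {Q : Ideal ZZ} (hQ : Q.IsPrime) {x y : Om} (hx : MP Q (x - 1))
    (hy : MP Q (y - 1)) : MP Q (x * y - 1) := by
  have hy1 : UP Q y := UP.congr UP.one hy
  have e : x * y - 1 = (x - 1) * y + (y - 1) := by ring
  rw [e]
  exact (MP.mul_right hx hy1.1).add hy

private theorem Ra_pu_inv {Q : Ideal ZZ} (hQ : Q.IsPrime) {x : Om} (hx : MP Q (x - 1)) :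
    MP Q (x⁻¹ - 1) := by
  have hx1 : UP Q x := UP.congr UP.one hx
  have hx0 : x ≠ 0 := hx1.ne_zero
  have e : x⁻¹ - 1 = -((x - 1) * x⁻¹) := by
    rw [sub_mul, mul_inv_cancel₀ hx0]
    ring
  rw [e]
  exact (MP.mul_right hx hx1.inv.1).neg

private theorem Ra_pu_pow {Q : Ideal ZZ} (hQ : Q.IsPrime) {x : Om} (hx : MP Q (x - 1)) (n : ℕ) :
    MP Q (x ^ n - 1) := by
  induction n with
  | zero =>
    rw [pow_zero, sub_self]
    exact MP.zero
  | succ n ih =>
    rw [pow_succ]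
    exact Ra_pu_mul hQ ih hx

private theorem Ra_pu_zpow {Q : Ideal ZZ} (hQ : Q.IsPrime) {x : Om} (hx : MP Q (x - 1)) (n : ℤ) :
    MP Q (x ^ n - 1) := by
  cases n with
  | ofNat n =>
    rw [Int.ofNat_eq_natCast, zpow_natCast]
    exact Ra_pu_pow hQ hx n
  | negSucc n =>
    rw [zpow_negSucc]
    exact Ra_pu_inv hQ (Ra_pu_pow hQ hx (n + 1))

/-- A power of `zt` is `1` modulo `Q` only if it is `1`. -/
private theorem Ra_root (p : ℕ) [hp : Fact p.Prime] {Q : Ideal ZZ} (hQ : Q.IsPrime)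
    (hpQ : (p : ZZ) ∉ Q) {zt : Om} (hz : IsPrimitiveRoot zt p) (e : ℤ)
    (h : MP Q (zt ^ e - 1)) : (p : ℤ) ∣ e := by
  by_contra hnd
  have hcop : IsCoprime (p : ℤ) e := (Nat.prime_iff_prime_int.1 hp.out).coprime_iff_not_dvd.2 hnd
  have hy : IsPrimitiveRoot (zt ^ e) p := by
    refine hz.zpow_of_gcd_eq_one e ?_
    rw [Int.gcd_comm]
    exact Int.isCoprime_iff_gcd_eq_one.1 hcop
  have h6 : ∑ j ∈ Finset.range p, (zt ^ e) ^ j = 0 := hy.geom_sum_eq_zero hp.out.one_lt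
  have h7 : MP Q (p : Om) := by
    have e1 : (p : Om) = -∑ j ∈ Finset.range p, ((zt ^ e) ^ j - 1) := by
      rw [Finset.sum_sub_distrib, h6]
      simp
    rw [e1]
    exact (MP.sum _ _ fun j _ => Ra_pu_pow hQ h j).neg
  exact hpQ ((MP.nat_iff p).1 h7)

/-- A unit if a power is. -/
private theorem Ra_up (p : ℕ) (hp : 0 < p) {F : IntermediateField ℚ Om} [NumberField F]
    {v : HeightOneSpectrum (𝓞 F)} {Q : Ideal ZZ} (h : Ab F Q v) {y u : Om} {c : F} (hc : c ≠ 0)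
    (hu : UP Q u) (hy : y ^ p = c * u) (h0 : vl F v c = 0) : UP Q y := by
  have hP : Q.IsPrime := h.1
  refine UP.of_pow (n := p) hp ?_
  rw [hy]
  exact UP.mul ((vl_up h hc).2 h0) hu

/-- An element of the inertia group acts on the units trivially modulo `Q`. -/
private theorem Ra_iner {Q : Ideal ZZ} (hQ : Q.IsPrime) {s : Gal(Om/ℚ)}
    (hs : s ∈ Q.inertia Gal(Om/ℚ)) {y c : Om} (hy : UP Q y) (h : s y = c * y) :
    MP Q (c - 1) := by
  have h1 := VP.inertia hs hy.1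
  have hy0 := hy.ne_zero
  have e : c - 1 = (s y - y) * y⁻¹ := by
    rw [h, sub_mul, mul_inv_cancel_right₀ hy0, mul_inv_cancel₀ hy0]
  rw [e]
  exact MP.mul_right h1 hy.inv.1

theorem pRa : S_pRa := by
  intro p hp F _ zt hz hzF h hh w δ b d k H v Q hAb hpQ hex
  have hQ : Q.IsPrime := hAb.1
  obtain ⟨-, h2, -, -⟩ := hh
  -- an element of the inertia group with `h = 1`
  obtain ⟨s, hs, hsF, hs1⟩ : ∃ s ∈ Q.inertia Gal(Om/ℚ), s ∈ F.fixingSubgroup ∧ h s = 1 := by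
    obtain ⟨ι, hι, hιF, hι0⟩ := hex
    have hpow : ∀ n : ℕ, h (ι ^ n) = n * h ι := by
      intro n
      induction n with
      | zero =>
        have h3 := h2 1 (one_mem _) 1 (one_mem _)
        rw [mul_one] at h3
        rw [pow_zero, Nat.cast_zero, zero_mul]
        exact left_eq_add.1 h3
      | succ n ih =>
        rw [pow_succ, h2 _ (pow_mem hιF n) _ hιF, ih]
        push_cast
        ring
    refine ⟨ι ^ ((h ι)⁻¹).val, pow_mem hι _, pow_mem hιF _, ?_⟩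
    rw [hpow, ZMod.natCast_zmod_val, inv_mul_cancel₀ hι0]
  have hsδ : s δ = zt * δ := by
    rw [H.hd s hsF, hs1, ZMod.val_one, pow_one]
  have hsb : s b * w = b := H.b1 s hsF hs1
  have hw0 : w ≠ 0 := by
    rintro rfl
    rw [mul_zero] at hsb
    exact H.bne hsb.symm
  have hsb' : s b = w⁻¹ * b := by
    rw [eq_inv_mul_iff_mul_eq₀ hw0, mul_comm]
    exact hsb
  have hub := H.ub Q hQ hAb.2.1 hpQ
  have hw : UP Q w := by
    have h3 := hub.1 s hsF
    rw [hsb', mul_inv_cancel_right₀ H.bne] at h3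
    have h4 := h3.inv
    rwa [inv_inv] at h4
  obtain ⟨t, ht0, ht⟩ := vl_unif v
  have hT : (t : Om) ≠ 0 := Ra_ne ht0
  have hst : ∀ n : ℤ, s ((t : Om) ^ n) = (t : Om) ^ n := fun n => by
    rw [map_zpow₀, Ra_fix hsF]
  have hzt0 : zt ≠ 0 := hz.ne_zero hp.out.ne_zero
  have hd0 : d ≠ 0 := by
    intro h3
    have h4 := H.dd
    rw [h3] at h4
    exact pow_ne_zero p H.dne h4.symm
  refine ⟨fun hn => ?_, fun m hm => ?_⟩
  · -- the valuation of `d` is prime to `p`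
    obtain ⟨j, hj⟩ := (ZMod.intCast_zmod_eq_zero_iff_dvd _ p).1 hn
    have hU : UP Q (δ * (t : Om) ^ (-j)) := by
      refine Ra_up p hp.out.pos hAb (c := d * t ^ (-(p * j))) (u := 1)
        (mul_ne_zero hd0 (zpow_ne_zero _ ht0)) UP.one ?_ ?_
      · rw [mul_one, IntermediateField.coe_mul, Ra_coe_zpow, H.dd, mul_pow, ← zpow_natCast
          ((t : Om) ^ (-j)), ← zpow_mul]
        congr 2
        ring
      · rw [vl_mul v _ _ hd0 (zpow_ne_zero _ ht0), vl_zpow v _ ht0, hj, ht]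
        ring
    have h3 : MP Q (zt - 1) := by
      refine Ra_iner hQ hs hU ?_
      rw [map_mul, hst, hsδ]
      ring
    have h4 := Ra_root p hQ hpQ hz 1 (by rwa [zpow_one])
    have h5 : (p : ℤ) = 1 := Int.eq_one_of_dvd_one (Int.natCast_nonneg p) h4
    exact hp.out.one_lt.ne' (by exact_mod_cast h5)
  · set n : ℤ := vl F v d with hn
    set κ : ℤ := vl F v k with hκ
    set u : Om := (k : Om) * (b ^ p)⁻¹ with hu
    have huU : UP Q u := hub.2
    have hbp : b ^ p ≠ 0 := pow_ne_zero p H.bne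
    have hbu : b ^ p = k * u⁻¹ := by
      have hk0 : (k : Om) ≠ 0 := Ra_ne H.kne
      rw [hu, mul_inv, inv_inv, mul_inv_cancel_left₀ hk0]
    have hU : UP Q (b ^ n * δ ^ (-κ)) := by
      refine Ra_up p hp.out.pos hAb (c := k ^ n * d ^ (-κ)) (u := u⁻¹ ^ n)
        (mul_ne_zero (zpow_ne_zero _ H.kne) (zpow_ne_zero _ hd0)) (Ra_upz hQ huU.inv n) ?_ ?_
      · have e1 : (b ^ n) ^ p = (b ^ p) ^ n := by
          rw [← zpow_natCast, ← zpow_natCast, ← zpow_mul, ← zpow_mul, mul_comm]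
        have e2 : (δ ^ (-κ)) ^ p = (δ ^ p) ^ (-κ) := by
          rw [← zpow_natCast, ← zpow_natCast, ← zpow_mul, ← zpow_mul, mul_comm]
        rw [IntermediateField.coe_mul, Ra_coe_zpow, Ra_coe_zpow, mul_pow, e1, e2, hbu, H.dd,
          mul_zpow]
        ring
      · rw [vl_mul v _ _ (zpow_ne_zero _ H.kne) (zpow_ne_zero _ hd0), vl_zpow v _ H.kne,
          vl_zpow v _ hd0, ← hn, ← hκ]
        ring
    have h3 : MP Q ((w⁻¹) ^ n * zt ^ (-κ) - 1) := by
      refine Ra_iner hQ hs hU ?_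
      rw [map_mul, map_zpow₀, map_zpow₀, hsb', hsδ, mul_zpow, mul_zpow]
      ring
    have h4 : MP Q (w * (zt ^ m)⁻¹ - 1) := by
      have hztU : UP Q zt := by
        refine UP.of_pow (n := p) hp.out.pos ?_
        rw [hz.pow_eq_one]
        exact UP.one
      have e1 : w * (zt ^ m)⁻¹ - 1 = (w - zt ^ m) * (zt ^ m)⁻¹ := by
        rw [sub_mul, mul_inv_cancel₀ (pow_ne_zero m hzt0)]
      rw [e1]
      exact MP.mul_right hm (hztU.pow m).inv.1
    have h5 := Ra_pu_mul hQ (Ra_pu_zpow hQ h4 n) h3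
    have e2 : (w * (zt ^ m)⁻¹) ^ n * ((w⁻¹) ^ n * zt ^ (-κ)) = zt ^ (-(m * n + κ)) := by
      have e3 : ((zt ^ m)⁻¹) ^ n = zt ^ (-(m * n : ℤ)) := by
        rw [inv_zpow', ← zpow_natCast, ← zpow_mul]
        congr 1
        ring
      have e4 : w ^ n * (w⁻¹) ^ n = 1 := by
        rw [← mul_zpow, mul_inv_cancel₀ hw0, one_zpow]
      rw [mul_zpow, e3, neg_add, zpow_add₀ hzt0]
      linear_combination (zt ^ (-(m * n : ℤ)) * zt ^ (-κ)) * e4
    rw [e2] at h5
    have h6 := Ra_root p hQ hpQ hz _ h5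
    rw [dvd_neg] at h6
    exact (ZMod.intCast_zmod_eq_zero_iff_dvd _ p).2 h6

end Pool.Agent.DT
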