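import Pool.Agent.Lib.DT.T.Spec

set_option autoImplicit false

/-!
# Theorem DT, part T, module Rel: the sum over the conjugates of Q (adapted from `DI/T/TRel.lean`)
-/

open scoped Pointwise nonZeroDivisors

noncomputable section

namespace Pool.Agent.DT

open Pool.Agent.MuZ Pool.Agent.FW NumberField IsDedekindDomain
open Pool.Agent.DI (VP MP UP vl_val vl_mul vl_one vl_inv vl_div vl_pow vl_zpow vl_neg vl_unif vl_vp
  vl_mp vl_up vp_vl mp_vl)

private theorem Rel_aut (F : IntermediateField ℚ Om) [NumberField F] (σ : Gal(Om/ℚ))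
    (h : ∀ x ∈ F, σ x ∈ F) : (∀ x ∈ F, σ⁻¹ x ∈ F) ∧
      ∃ s : 𝓞 F ≃+* 𝓞 F, ∀ x : 𝓞 F, iO F (s x) = σ • iO F x := by
  let f : F →ₐ[ℚ] F := ((σ : Om →ₐ[ℚ] Om).comp F.val).codRestrict F.toSubalgebra
    (fun x => h x x.2)
  have hf : Function.Bijective f := AlgHom.bijective f
  let e : F ≃+* F := RingEquiv.ofBijective f hf
  refine ⟨?_, RingOfIntegers.mapRingEquiv e, fun x => Subtype.ext rfl⟩
  intro x hx
  obtain ⟨y, hy⟩ := hf.2 ⟨x, hx⟩
  have h1 : σ (y : Om) = x := congrArg (fun z : F => (z : Om)) hy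
  have h2 : σ⁻¹ x = (y : Om) := by
    rw [← h1]
    exact σ.symm_apply_apply (y : Om)
  rw [h2]
  exact y.2

private theorem Rel_card (F : IntermediateField ℚ Om) [NumberField F] (σ : Gal(Om/ℚ))
    (h : ∀ x ∈ F, σ x ∈ F) (Q : Ideal ZZ) :
    Nat.card (𝓞 F ⧸ (σ • Q).comap (iO F)) = Nat.card (𝓞 F ⧸ Q.comap (iO F)) := by
  obtain ⟨-, s, hs⟩ := Rel_aut F σ h
  have h1 : (σ • Q).comap (iO F) = Ideal.map (s : 𝓞 F →+* 𝓞 F) (Q.comap (iO F)) := by
    ext y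
    rw [Ideal.map_comap_of_equiv, Ideal.mem_comap, Ideal.mem_comap, Ideal.mem_comap]
    have h2 : iO F y = σ • iO F (s.symm y) := by
      rw [← hs, RingEquiv.apply_symm_apply]
    rw [h2, Ideal.smul_mem_pointwise_smul_iff]
  exact (Nat.card_congr (Ideal.quotientEquiv _ _ s h1).toEquiv).symm

private theorem Rel_fr (F : IntermediateField ℚ Om) [NumberField F] (σ φ : Gal(Om/ℚ))
    (h : ∀ x ∈ F, σ x ∈ F) (Q : Ideal ZZ) (hφ : IsFr F Q φ) :
    IsFr F (σ • Q) (σ * φ * σ⁻¹) := by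
  refine ⟨?_, fun x => ?_⟩
  · rw [IntermediateField.mem_fixingSubgroup_iff]
    intro x hx
    have h1 := (IntermediateField.mem_fixingSubgroup_iff F φ).1 hφ.1 (σ⁻¹ x)
      ((Rel_aut F σ h).1 x hx)
    have h2 : (σ * φ * σ⁻¹) x = σ (φ (σ⁻¹ x)) := rfl
    rw [h2, h1]
    exact σ.apply_symm_apply x
  · rw [Rel_card F σ h Q]
    have h1 := hφ.2 (σ⁻¹ • x)
    have h2 := (Ideal.smul_mem_pointwise_smul_iff (a := σ)).2 h1
    rw [smul_sub, smul_pow', smul_inv_smul] at h2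
    rw [mul_smul, mul_smul]
    exact h2

theorem pRel : S_pRel := by
  intro p _ F _ R zt u Q φ k g a hR hQ hQ0 hφ hk hinj hcl h2a ha
  classical
  have hex : ∀ σ : Gal(Om/ℚ), ∃ v : HeightOneSpectrum (𝓞 F), Ab F (σ • Q) v := by
    intro σ
    refine tLie.2.1 F (σ • Q) (Ideal.IsPrime.smul σ) ?_
    intro h
    apply hQ0
    have h1 : σ⁻¹ • (σ • Q) = σ⁻¹ • (⊥ : Ideal ZZ) := by rw [h]
    rw [inv_smul_smul] at h1
    rw [h1]
    exact Ideal.smul_bot σ⁻¹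
  choose w hw using hex
  have huniq : ∀ (σ : Gal(Om/ℚ)) (v : HeightOneSpectrum (𝓞 F)), Ab F (σ • Q) v → v = w σ := by
    intro σ v hv
    apply HeightOneSpectrum.ext
    rw [hv.2.2, (hw σ).2.2]
  have hwinj : ∀ σ ∈ R, ∀ τ ∈ R, w σ = w τ → σ = τ := by
    intro σ hσ τ hτ hst
    apply hinj σ hσ τ hτ
    rw [← (hw σ).2.2, ← (hw τ).2.2, hst]
  have hsum := hcl k hk.ne
  have hsupp : Function.support (fun v : HeightOneSpectrum (𝓞 F) =>
      (vl F v k : ZMod p) * a v) ⊆ ((R.image w : Finset (HeightOneSpectrum (𝓞 F))) :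
        Set (HeightOneSpectrum (𝓞 F))) := by
    intro v hv
    by_contra hnot
    apply hv
    have hnR : ∀ σ ∈ R, ¬ Ab F (σ • Q) v := by
      intro σ hσ hAb
      apply hnot
      rw [Finset.coe_image]
      exact ⟨σ, hσ, (huniq σ v hAb).symm⟩
    show (vl F v k : ZMod p) * a v = 0
    by_cases h2 : (p : 𝓞 F) ∈ v.asIdeal
    · rw [h2a v h2, mul_zero]
    · obtain ⟨Q', hQ'⟩ := tLie.1 F v
      have h2' : (p : ZZ) ∉ Q' := by
        intro h3
        apply h2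
        rw [hQ'.2.2, Ideal.mem_comap, map_natCast]
        exact h3
      have hev := hk.ev v Q' hQ' h2' hnR
      have h0 : ((vl F v k : ℤ) : ZMod p) = 0 := (ZMod.intCast_zmod_eq_zero_iff_dvd _ _).2 hev
      rw [h0, zero_mul]
  rw [finsum_eq_sum_of_support_subset _ hsupp, Finset.sum_image hwinj] at hsum
  rw [← hsum]
  refine Finset.sum_congr rfl fun σ hσ => ?_
  rw [hk.od (w σ) σ hσ (hw σ), ha σ hσ (w σ) (σ * φ * σ⁻¹) (hw σ) (Rel_fr F σ φ (hR σ hσ) Q hφ)]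

end Pool.Agent.DT
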