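import Pool.Agent.Lib.DT.T.Spec

/-!
# Theorem DT, part T: primes with prescribed values of characters up to a common factor
-/

set_option autoImplicit false

open scoped Pointwise nonZeroDivisors

noncomputable section

namespace Pool.Agent.DT

open Pool.Agent.MuZ Pool.Agent.FW NumberField IsDedekindDomain
open Pool.Agent.DI (VP MP UP vl_val vl_mul vl_one vl_inv vl_div vl_pow vl_zpow vl_neg vl_unif vl_vp
  vl_mp vl_up vp_vl mp_vl)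

private theorem Sel_ex (F : IntermediateField ℚ Om) [NumberField F]
    (v : HeightOneSpectrum (𝓞 F)) :
    ∃ (P : Ideal ZZ) (φ : Gal(Om/ℚ)), Ab F P v ∧ IsFr F P φ := by
  obtain ⟨P, hP⟩ := tLie.1 F v
  obtain ⟨φ, hφ⟩ := tFrE F P hP.1 hP.2.1
  exact ⟨P, φ, hP, hφ⟩

/-- removing a finite set -/
private theorem Sel_cut {K : Type} [Field K] [NumberField K] {A B : Set (HeightOneSpectrum (𝓞 K))}
    {d : ℝ} (hA : ZD.Dn K A d) (hB : B.Finite) : ZD.Dn K (A \ B) d := by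
  refine hA.congr (ZD.Dn_finite hB) (fun v hv => ?_) (fun v hv => Or.inl hv.1)
  by_cases hvB : v ∈ B
  · exact Or.inr hvB
  · exact Or.inl ⟨hv, hvB⟩

/-- positive density and density zero exclude each other -/
private theorem Sel_pos {K : Type} [Field K] [NumberField K] {A : Set (HeightOneSpectrum (𝓞 K))}
    {d : ℝ} (hd : 0 < d) (hA : ZD.Dn K A d) (hA0 : ZD.Dn K A 0) : False := by
  obtain ⟨C, hC⟩ := hA
  obtain ⟨C', hC'⟩ := hA0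
  have h1 : ∀ x : ℝ, 0 < x → x ≤ 1 → Real.log (1 / x) ≤ (C + C') / d := by
    intro x h0 h1
    have a1 := abs_le.1 (hC x h0 h1)
    have a2 := abs_le.1 (hC' x h0 h1)
    rw [le_div_iff₀ hd]
    linarith [a1.1, a1.2, a2.1, a2.2]
  have h2 := h1 (Real.exp (-(|(C + C') / d| + 1))) (Real.exp_pos _)
    (Real.exp_le_one_iff.2 (by linarith [abs_nonneg ((C + C') / d)]))
  rw [one_div, Real.log_inv, Real.log_exp, neg_neg] at h2
  linarith [le_abs_self ((C + C') / d)]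

private theorem Sel_one {p : ℕ} {W : Subgroup Gal(Om/ℚ)} {h : Gal(Om/ℚ) → ZMod p}
    (hh : h ∈ VV p ∅ W) : h 1 = 0 := by
  have e := hh.2.1 1 W.one_mem 1 W.one_mem
  rw [mul_one] at e
  exact left_eq_add.1 e

private theorem Sel_inv {p : ℕ} {W : Subgroup Gal(Om/ℚ)} {h : Gal(Om/ℚ) → ZMod p}
    (hh : h ∈ VV p ∅ W) {τ : Gal(Om/ℚ)} (hτ : τ ∈ W) : h τ⁻¹ = -h τ := by
  have e := hh.2.1 τ⁻¹ (W.inv_mem hτ) τ hτ
  rw [inv_mul_cancel, Sel_one hh] at e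
  exact eq_neg_of_add_eq_zero_left e.symm

private theorem Sel_conj {p : ℕ} {W : Subgroup Gal(Om/ℚ)} {h : Gal(Om/ℚ) → ZMod p}
    (hh : h ∈ VV p ∅ W) {σ τ : Gal(Om/ℚ)} (hσ : σ ∈ W) (hτ : τ ∈ W) : h (σ * τ * σ⁻¹) = h τ := by
  rw [hh.2.1 _ (W.mul_mem hσ hτ) _ (W.inv_mem hσ), hh.2.1 σ hσ τ hτ, Sel_inv hh hσ]
  ring

theorem pSel (h1 : S_pFl) : S_pSel := by
  classical
  intro p _ F _ ι _ h hh φ₀ hφ₀ hne X hX
  have : Fintype ι := Fintype.ofFinite ι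
  let G := F.fixingSubgroup
  let W₁ : Subgroup Gal(Om/ℚ) :=
    { carrier := {τ | τ ∈ G ∧ ∃ c : ZMod p, ∀ i, h i τ = c * h i φ₀}
      mul_mem' := by
        rintro a b ⟨ha, c, hc⟩ ⟨hb, c', hc'⟩
        refine ⟨G.mul_mem ha hb, c + c', fun i => ?_⟩
        rw [(hh i).2.1 a ha b hb, hc, hc']
        ring
      one_mem' := ⟨G.one_mem, 0, fun i => by rw [Sel_one (hh i), zero_mul]⟩
      inv_mem' := by
        rintro a ⟨ha, c, hc⟩
        refine ⟨G.inv_mem ha, -c, fun i => ?_⟩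
        rw [Sel_inv (hh i) ha, hc]
        ring }
  let W₀ : Subgroup Gal(Om/ℚ) :=
    { carrier := {τ | τ ∈ G ∧ ∀ i, h i τ = 0}
      mul_mem' := by
        rintro a b ⟨ha, hc⟩ ⟨hb, hc'⟩
        refine ⟨G.mul_mem ha hb, fun i => ?_⟩
        rw [(hh i).2.1 a ha b hb, hc, hc', add_zero]
      one_mem' := ⟨G.one_mem, fun i => Sel_one (hh i)⟩
      inv_mem' := by
        rintro a ⟨ha, hc⟩
        refine ⟨G.inv_mem ha, fun i => ?_⟩
        rw [Sel_inv (hh i) ha, hc, neg_zero] }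
  have m1 : ∀ τ, τ ∈ W₁ ↔ τ ∈ G ∧ ∃ c : ZMod p, ∀ i, h i τ = c * h i φ₀ := fun τ => Iff.rfl
  have m0 : ∀ τ, τ ∈ W₀ ↔ τ ∈ G ∧ ∀ i, h i τ = 0 := fun τ => Iff.rfl
  have hle1 : W₁ ≤ G := fun τ hτ => hτ.1
  have hle0 : W₀ ≤ G := fun τ hτ => hτ.1
  have hle : W₀ ≤ W₁ := fun τ hτ => ⟨hτ.1, 0, fun i => by rw [hτ.2 i, zero_mul]⟩
  choose O hO using fun i => (hh i).2.2.1
  have hO0 : ∀ g ∈ G, g ∈ Finset.univ.inf O → g ∈ W₀ := fun g hg hgO =>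
    ⟨hg, fun i => hO i g hg ((Finset.inf_le (Finset.mem_univ i) : Finset.univ.inf O ≤ O i) hgO)⟩
  obtain ⟨L₀, _, _, _, _, hfr0, B₀, hB0, hS0⟩ := h1 F W₀ hle0 ⟨_, hO0⟩ (by
    rintro σ hσ τ ⟨hτ, hc⟩
    refine ⟨G.mul_mem (G.mul_mem hσ hτ) (G.inv_mem hσ), fun i => ?_⟩
    rw [Sel_conj (hh i) hσ hτ, hc])
  obtain ⟨L₁, _, _, _, _, hfr1, B₁, hB1, hS1⟩ := h1 F W₁ hle1 ⟨_, fun g hg hgO => hle (hO0 g hg hgO)⟩
    (by
      rintro σ hσ τ ⟨hτ, c, hc⟩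
      refine ⟨G.mul_mem (G.mul_mem hσ hτ) (G.inv_mem hσ), c, fun i => ?_⟩
      rw [Sel_conj (hh i) hσ hτ, hc])
  -- the degrees
  have hp0 : 0 < Module.finrank F L₀ := Module.finrank_pos
  have hp1 : 0 < Module.finrank F L₁ := Module.finrank_pos
  have hlt : Module.finrank F L₁ < Module.finrank F L₀ := by
    have e := Subgroup.relIndex_mul_relIndex W₀ W₁ G hle hle1
    rw [hfr0, hfr1]
    rw [hfr0] at hp0
    rw [hfr1] at hp1
    have e1 : W₀.relIndex W₁ ≠ 1 := by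
      intro h'
      have h2 : W₁ ≤ W₀ := Subgroup.relIndex_eq_one.1 h'
      have h3 : φ₀ ∈ W₀ := h2 ⟨hφ₀, 1, fun i => by rw [one_mul]⟩
      obtain ⟨i, hi⟩ := hne
      exact hi (h3.2 i)
    have e0 : W₀.relIndex W₁ ≠ 0 := by
      intro h'
      rw [h', zero_mul] at e
      rw [← e] at hp0
      exact lt_irrefl 0 hp0
    have e2 : 2 ≤ W₀.relIndex W₁ := by omega
    rw [← e]
    nlinarith
  have hd : (0 : ℝ) < 1 / Module.finrank F L₁ - 1 / Module.finrank F L₀ := by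
    have a1 : (0 : ℝ) < Module.finrank F L₁ := Nat.cast_pos.2 hp1
    have a2 : (Module.finrank F L₁ : ℝ) < Module.finrank F L₀ := Nat.cast_lt.2 hlt
    exact sub_pos.2 (one_div_lt_one_div_of_lt a1 a2)
  have hBf : (B₀ ∪ B₁).Finite := hB0.union hB1
  have hsub : ZD.Spl F L₀ \ (B₀ ∪ B₁) ⊆ ZD.Spl F L₁ \ (B₀ ∪ B₁) := by
    rintro v ⟨hv, hvB⟩
    obtain ⟨P, φ, hP, hφ⟩ := Sel_ex F v
    have hv0 : v ∉ B₀ := fun h' => hvB (Or.inl h')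
    have hv1 : v ∉ B₁ := fun h' => hvB (Or.inr h')
    exact ⟨(hS1 v hv1 P φ hP hφ).1 (hle ((hS0 v hv0 P φ hP hφ).2 hv)), hvB⟩
  have hD := (Sel_cut (ZD.Dn_Spl F L₁) hBf).sdiff (Sel_cut (ZD.Dn_Spl F L₀) hBf) hsub
  by_contra hcon
  refine Sel_pos hd hD (ZD.Dn_subset (fun v hv => ?_) (hX.union_zero (ZD.Dn_deg F)))
  by_contra hv2
  have hv3 : v ∉ X := fun hx => hv2 (Or.inl hx)
  have hv4 : (ZD.nm v).Prime := by
    by_contra hp
    exact hv2 (Or.inr hp)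
  refine hcon ⟨v, hv3, hv4, fun P φ hP hφ => ?_⟩
  obtain ⟨⟨hv5, hvB⟩, hv6⟩ := hv
  have hv0 : v ∉ B₀ := fun h' => hvB (Or.inl h')
  have hv1 : v ∉ B₁ := fun h' => hvB (Or.inr h')
  obtain ⟨hφG, c, hc⟩ := (hS1 v hv1 P φ hP hφ).2 hv5
  refine ⟨c, fun h0 => ?_, hc⟩
  refine hv6 ⟨(hS0 v hv0 P φ hP hφ).1 ⟨hφG, fun i => ?_⟩, hvB⟩
  rw [hc, h0, zero_mul]

end Pool.Agent.DT
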