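import Pool.Agent.Lib.DT.T.Spec

set_option autoImplicit false

open scoped Pointwise nonZeroDivisors

noncomputable section

namespace Pool.Agent.DT

open Pool.Agent.MuZ Pool.Agent.FW NumberField IsDedekindDomain
open Pool.Agent.DI (VP MP UP vl_val vl_mul vl_one vl_inv vl_div vl_pow vl_zpow vl_neg vl_unif vl_vp
  vl_mp vl_up vp_vl mp_vl)

private theorem TH_inv (F : IntermediateField ℚ Om) [NumberField F] (σ : Gal(Om/ℚ))
    (h : ∀ x ∈ F, σ x ∈ F) : ∀ x ∈ F, σ⁻¹ x ∈ F := by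
  let f : F →ₗ[ℚ] F :=
    { toFun := fun x => ⟨σ x, h x x.2⟩
      map_add' := fun a b => Subtype.ext (by simp)
      map_smul' := fun c a => Subtype.ext (by
        change σ (c • (a : Om)) = c • σ (a : Om)
        rw [Algebra.smul_def, Algebra.smul_def, map_mul, σ.commutes]) }
  have hinj : Function.Injective f := by
    intro a b hab
    have h1 : σ (a : Om) = σ (b : Om) := congrArg Subtype.val hab
    exact Subtype.ext (σ.injective h1)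
  have hsurj : Function.Surjective f := LinearMap.injective_iff_surjective.1 hinj
  intro x hx
  obtain ⟨y, hy⟩ := hsurj ⟨x, hx⟩
  have h1 : σ (y : Om) = x := congrArg Subtype.val hy
  have h2 : σ⁻¹ (σ (y : Om)) = y := AlgEquiv.symm_apply_apply σ (y : Om)
  rw [← h1, h2]
  exact y.2

private theorem TH_fix {F : IntermediateField ℚ Om} {σ : Gal(Om/ℚ)} (h : σ ∈ F.fixingSubgroup)
    {x : Om} (hx : x ∈ F) : σ x = x :=
  (IntermediateField.mem_fixingSubgroup_iff F σ).1 h x hx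

private theorem TH_norm (F : IntermediateField ℚ Om) [NumberField F] (σ τ : Gal(Om/ℚ))
    (h : ∀ x ∈ F, σ x ∈ F) (hτ : τ ∈ F.fixingSubgroup) : σ * τ * σ⁻¹ ∈ F.fixingSubgroup := by
  rw [IntermediateField.mem_fixingSubgroup_iff]
  intro x hx
  have h1 : σ⁻¹ x ∈ F := TH_inv F σ h x hx
  have h2 : (σ * τ * σ⁻¹) x = σ (τ (σ⁻¹ x)) := rfl
  rw [h2, TH_fix hτ h1]
  exact AlgEquiv.apply_symm_apply σ x

private theorem TH_cj (σ ρ : Gal(Om/ℚ)) (Λ : Subgroup Gal(Om/ℚ)) (hρ : ρ ∈ Λ) :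
    σ * ρ * σ⁻¹ ∈ cj σ Λ := by
  unfold cj
  rw [Subgroup.mem_map]
  exact ⟨ρ, hρ, by simp [MulAut.conj_apply]⟩

private theorem TH_stab (σ : Gal(Om/ℚ)) (P : Ideal ZZ) :
    cj σ (MulAction.stabilizer Gal(Om/ℚ) P) = MulAction.stabilizer Gal(Om/ℚ) (σ • P) := by
  unfold cj
  rw [MulAction.stabilizer_smul_eq_stabilizer_map_conj]

private theorem TH_loc (p : ℕ) (σ : Gal(Om/ℚ)) (P : Ideal ZZ) (hP : P.IsPrime)
    (hpP : (p : ZZ) ∈ P) : cj σ (MulAction.stabilizer Gal(Om/ℚ) P) ∈ Loc p := by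
  right
  refine ⟨σ • P, Ideal.IsPrime.smul σ, ?_, TH_stab σ P⟩
  have h1 : σ • (p : ZZ) ∈ σ • P := Ideal.smul_mem_pointwise_smul σ _ P hpP
  have h2 : σ • (p : ZZ) = (p : ZZ) :=
    map_natCast (MulSemiringAction.toRingHom Gal(Om/ℚ) ZZ σ) p
  rwa [h2] at h1

/-- Theorem H, abstract form, `p` odd. -/
theorem pTH (h1 : S_pQu) (h2 : S_pKa) : S_pTH := by
  intro p _ hp F _ R u zt M hR hR2 huF hu hzt hztF hM hT g hg P hP hpP d hd hdF τ hτ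
  have hg' := hg
  obtain ⟨g1, g2, g3, g4⟩ := hg'
  have hmul : ∀ σ ∈ R, ∀ x ∈ F.fixingSubgroup, ∀ y ∈ F.fixingSubgroup,
      g (σ * (x * y) * σ⁻¹) = g (σ * x * σ⁻¹) + g (σ * y * σ⁻¹) := by
    intro σ hσ x hx y hy
    rw [← g2 _ (TH_norm F σ x (hR σ hσ) hx) _ (TH_norm F σ y (hR σ hσ) hy)]
    congr 1
    group
  have e1 := h1 p hp F R u zt M hR hR2 huF hu hzt hztF hM hT g hg (d * τ) (mul_mem hdF hτ)
  have e2 := h1 p hp F R u zt M hR hR2 huF hu hzt hztF hM hT g hg τ hτ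
  have e3 : ∑ σ ∈ R, kp p zt (σ⁻¹ u) (d * τ) * g (σ * (d * τ) * σ⁻¹) =
      ∑ σ ∈ R, kp p zt (σ⁻¹ u) d * g (σ * τ * σ⁻¹) +
        ∑ σ ∈ R, kp p zt (σ⁻¹ u) τ * g (σ * τ * σ⁻¹) := by
    rw [← Finset.sum_add_distrib]
    refine Finset.sum_congr rfl fun σ hσ => ?_
    have hz : σ⁻¹ u ∈ F := TH_inv F σ (hR σ hσ) u huF
    have hz0 : σ⁻¹ u ≠ 0 := by
      intro h0
      exact hu ((map_eq_zero_iff (σ⁻¹ : Gal(Om/ℚ)) (σ⁻¹ : Gal(Om/ℚ)).injective).1 h0)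
    have k0 : g (σ * d * σ⁻¹) = 0 :=
      g4 (cj σ (MulAction.stabilizer Gal(Om/ℚ) P)) (TH_loc p σ P hP hpP) _ (TH_cj σ d _ hd)
        (TH_norm F σ d (hR σ hσ) hdF)
    rw [(h2 p zt hzt).2.1 (σ⁻¹ u) d τ hz0 (TH_fix hdF hz) (TH_fix hτ hz) (TH_fix hdF hztF)
      (TH_fix hτ hztF), hmul σ hσ d hdF τ hτ, k0]
    ring
  rw [e1, e2, add_zero] at e3
  exact e3.symm

end Pool.Agent.DT
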