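import Pool.Agent.Lib.DT.T.Spec

/-!
# Theorem DT, part T, module Un: unramified primes (helper49)
-/

set_option autoImplicit false

open scoped Pointwise nonZeroDivisors

noncomputable section

namespace Pool.Agent.DT

open Pool.Agent.MuZ Pool.Agent.FW NumberField IsDedekindDomain
open Pool.Agent.DI (VP MP UP vl_val vl_mul vl_one vl_inv vl_div vl_pow vl_zpow vl_neg vl_unif vl_vp
  vl_mp vl_up vp_vl mp_vl)

private theorem Un_mem {F : IntermediateField ℚ Om} {x : Om}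
    (h : ∀ σ ∈ F.fixingSubgroup, σ x = x) : x ∈ F := by
  rw [← InfiniteGalois.fixedField_fixingSubgroup F, IntermediateField.mem_fixedField_iff]
  intro σ hσ
  exact h σ hσ

private theorem Un_fix {F : IntermediateField ℚ Om} {σ : Gal(Om/ℚ)} (h : σ ∈ F.fixingSubgroup)
    (x : F) : σ (x : Om) = x := h x

private theorem Un_zpow {F : IntermediateField ℚ Om} (x : F) (n : ℤ) :
    ((x ^ n : F) : Om) = (x : Om) ^ n := map_zpow₀ (algebraMap F Om) x n

private theorem Un_ne {F : IntermediateField ℚ Om} {x : F} (h : x ≠ 0) : (x : Om) ≠ 0 :=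
  fun h1 => h (Subtype.ext h1)

private theorem Un_div {F : IntermediateField ℚ Om} [NumberField F] {v : HeightOneSpectrum (𝓞 F)}
    {Q : Ideal ZZ} (h : Ab F Q v) {t : F} (ht0 : t ≠ 0) (ht : vl F v t = 1) {x : F}
    (hx : MP Q (x : Om)) : VP Q ((x : Om) / t) := by
  have hP : Q.IsPrime := h.1
  by_cases h0 : x = 0
  · rw [h0]
    change VP Q (0 / (t : Om))
    rw [zero_div]
    exact VP.zero
  · have h1 : VP Q ((x / t : F) : Om) := by
      rw [vp_vl h (div_ne_zero h0 ht0), vl_div v _ _ h0 ht0, ht]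
      have := (mp_vl h h0).1 hx
      omega
    exact h1

/-- Values of a homomorphism at powers. -/
private theorem Un_pow {p : ℕ} {W : Subgroup Gal(Om/ℚ)} {h : Gal(Om/ℚ) → ZMod p}
    (hh : h ∈ VV p ∅ W) {σ : Gal(Om/ℚ)} (hσ : σ ∈ W) (n : ℕ) :
    h (σ ^ n) = n * h σ := by
  have h1 : h 1 = 0 := by
    have h2 := hh.2.1 1 W.one_mem 1 W.one_mem
    rw [mul_one] at h2
    simpa using h2
  induction n with
  | zero => rw [pow_zero, h1, Nat.cast_zero, zero_mul]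
  | succ n ih =>
    rw [pow_succ, hh.2.1 _ (W.pow_mem hσ n) _ hσ, ih]
    push_cast
    ring

private theorem Un_inv {p : ℕ} {W : Subgroup Gal(Om/ℚ)} {h : Gal(Om/ℚ) → ZMod p}
    (hh : h ∈ VV p ∅ W) {σ : Gal(Om/ℚ)} (hσ : σ ∈ W) : h σ⁻¹ = -h σ := by
  have h1 := Un_pow hh hσ 0
  rw [pow_zero, Nat.cast_zero, zero_mul] at h1
  have h2 := hh.2.1 σ⁻¹ (W.inv_mem hσ) σ hσ
  rw [inv_mul_cancel, h1] at h2
  exact eq_neg_of_add_eq_zero_left h2.symm

private theorem Un_surj {p : ℕ} [Fact p.Prime] {W : Subgroup Gal(Om/ℚ)} {h : Gal(Om/ℚ) → ZMod p}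
    (hh : h ∈ VV p ∅ W) (hne : h ≠ 0) (x : ZMod p) : ∃ σ ∈ W, h σ = x := by
  obtain ⟨σ, hσ⟩ := Function.ne_iff.1 hne
  have hσ' : h σ ≠ 0 := hσ
  have hσW : σ ∈ W := by
    by_contra h1
    exact hσ' (hh.1 σ h1)
  refine ⟨σ ^ (x * (h σ)⁻¹).val, W.pow_mem hσW _, ?_⟩
  rw [Un_pow hh hσW, ZMod.natCast_zmod_val, inv_mul_cancel_right₀ hσ']

/-- The decomposition of `β` with respect to the powers of `δ`. -/
private theorem Un_four {p : ℕ} [hp : Fact p.Prime] {F : IntermediateField ℚ Om} {zt : Om}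
    (hζ : IsPrimitiveRoot zt p) (hF : zt ∈ F) {h : Gal(Om/ℚ) → ZMod p}
    (hh : h ∈ VV p ∅ F.fixingSubgroup) (hne : h ≠ 0) {β δ : Om} (hδ0 : δ ≠ 0)
    (hδ : ∀ τ ∈ F.fixingSubgroup, τ δ = zt ^ (h τ).val * δ)
    (hβ : ∀ τ ∈ F.fixingSubgroup, h τ = 0 → τ β = β) :
    ∃ a : ZMod p → F, β = ∑ i, (a i : Om) * δ ^ i.val ∧
      ∀ Q : Ideal ZZ, Q.IsPrime → UP Q (p : Om) → UP Q δ →
        (∀ τ ∈ F.fixingSubgroup, MP Q (τ β)) → ∀ i, MP Q (a i : Om) := by
  classical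
  have hpO : (p : Om) ≠ 0 := Nat.cast_ne_zero.2 hp.out.ne_zero
  set ψ : AddChar (ZMod p) Om := AddChar.zmodChar p hζ.pow_eq_one with hψ
  have hψa : ∀ x : ZMod p, ψ x = zt ^ x.val := fun x => AddChar.zmodChar_apply hζ.pow_eq_one x
  have hψp : ψ.IsPrimitive := AddChar.zmodChar_primitive_of_primitive_root p hζ
  have hψf : ∀ τ ∈ F.fixingSubgroup, ∀ x, τ (ψ x) = ψ x := fun τ hτ x => by
    rw [hψa, map_pow]
    have := Un_fix hτ ⟨zt, hF⟩
    rw [this]
  choose T hTW hT using Un_surj hh hne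
  set B : ZMod p → Om := fun x => T x β with hB
  have hB1 : ∀ τ ∈ F.fixingSubgroup, τ β = B (h τ) := by
    intro τ hτ
    have h1 : ((T (h τ))⁻¹ * τ) β = β := by
      refine hβ _ (mul_mem (inv_mem (hTW _)) hτ) ?_
      rw [hh.2.1 _ (inv_mem (hTW _)) _ hτ, Un_inv hh (hTW _), hT, neg_add_cancel]
    calc τ β = (T (h τ) * ((T (h τ))⁻¹ * τ)) β := by rw [mul_inv_cancel_left]
      _ = T (h τ) (((T (h τ))⁻¹ * τ) β) := rfl
      _ = B (h τ) := by rw [h1]
  have hB2 : ∀ τ ∈ F.fixingSubgroup, ∀ x, τ (B x) = B (h τ + x) := by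
    intro τ hτ x
    have h1 := hB1 (τ * T x) (mul_mem hτ (hTW x))
    rw [hh.2.1 _ hτ _ (hTW x), hT] at h1
    exact h1
  have hB0 : B 0 = β := hβ _ (hTW 0) (hT 0)
  have hδi : ∀ τ ∈ F.fixingSubgroup, ∀ i : ZMod p,
      τ (δ ^ i.val) = ψ (i * h τ) * δ ^ i.val := by
    intro τ hτ i
    rw [map_pow, hδ τ hτ, ← hψa, mul_pow, ← AddChar.map_nsmul_eq_pow, nsmul_eq_mul,
      ZMod.natCast_zmod_val]
  set A : ZMod p → Om := fun i =>
    (p : Om)⁻¹ * (∑ x, ψ (-(x * i)) * B x) * (δ ^ i.val)⁻¹ with hA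
  have hAF : ∀ i, A i ∈ F := by
    intro i
    refine Un_mem fun τ hτ => ?_
    simp only [hA, map_mul, map_inv₀, map_natCast, map_sum, hδi τ hτ, hB2 τ hτ, hψf τ hτ]
    rw [mul_inv, ← AddChar.map_neg_eq_inv, mul_assoc, mul_assoc]
    congr 1
    rw [← mul_assoc, Finset.sum_mul]
    congr 1
    refine Fintype.sum_equiv (Equiv.addLeft (h τ)) _ _ fun x => ?_
    rw [Equiv.coe_addLeft, mul_right_comm, ← AddChar.map_add_eq_mul]
    congr 2
    ring
  refine ⟨fun i => ⟨A i, hAF i⟩, ?_, ?_⟩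
  · have h1 : ∀ i : ZMod p, A i * δ ^ i.val = (p : Om)⁻¹ * ∑ x, ψ (-(x * i)) * B x := by
      intro i
      rw [hA]
      exact inv_mul_cancel_right₀ (pow_ne_zero _ hδ0) _
    change β = ∑ i, A i * δ ^ i.val
    rw [Finset.sum_congr rfl fun i _ => h1 i, ← Finset.mul_sum, Finset.sum_comm]
    have h2 : ∀ x : ZMod p, ∑ i, ψ (-(x * i)) * B x = if x = 0 then (p : Om) * B x else 0 := by
      intro x
      rw [← Finset.sum_mul]
      have h3 : ∑ i : ZMod p, ψ (-(x * i)) = ∑ i : ZMod p, ψ (i * (-x)) :=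
        Finset.sum_congr rfl fun i _ => by congr 1; ring
      rw [h3, AddChar.sum_mulShift _ hψp]
      by_cases hx : x = 0
      · rw [if_pos hx, if_pos (by rw [hx, neg_zero]), ZMod.card]
      · rw [if_neg hx, if_neg (by rwa [neg_eq_zero]), Nat.cast_zero, zero_mul]
    rw [Finset.sum_congr rfl fun x _ => h2 x, Finset.sum_ite_eq' Finset.univ (0 : ZMod p),
      if_pos (Finset.mem_univ _), hB0, inv_mul_cancel_left₀ hpO]
  · intro Q hQ hup hud hm i
    change MP Q (A i)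
    have hz : VP Q zt := VP.integral (hζ.isIntegral hp.out.pos)
    refine MP.mul_right (MP.mul_left hup.inv.1 (MP.sum _ _ fun x _ => ?_)) (hud.pow _).inv.1
    refine MP.mul_left ?_ (hm _ (hTW x))
    rw [hψa]
    exact hz.pow _

/-- MODULE `Un`. -/
theorem pUn : S_pUn := by
  intro p hp F _ zt hζ hztF h hh hne w δ b d k H v Q hv hpQ hin
  have hQ : Q.IsPrime := hv.1
  obtain ⟨t, ht0, ht⟩ := vl_unif v
  have hT : (t : Om) ≠ 0 := Un_ne ht0
  have hd0 : d ≠ 0 := by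
    intro h0
    have h1 := H.dd
    rw [h0] at h1
    exact pow_ne_zero p H.dne h1.symm
  have hk0 := H.kne
  have hpU : UP Q (p : Om) := by
    refine ⟨VP.nat p, fun h1 => hpQ ((MP.nat_iff p).1 h1)⟩
  -- the unit `δ'`
  have h1 : (p : ℤ) ∣ vl F v d := tRm tIne p F zt δ hζ hztF H.dne d H.dd Q hQ hpQ
    (fun σ hσ hσF => by rw [H.hd σ hσF, hin σ hσ hσF, ZMod.val_zero, pow_zero, one_mul]) v hv.2.2
  obtain ⟨j, hj⟩ := h1
  set δ' : Om := δ * (t : Om) ^ (-j) with hδ'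
  have hδ'0 : δ' ≠ 0 := mul_ne_zero H.dne (zpow_ne_zero _ hT)
  have hδ'U : UP Q δ' := by
    refine UP.of_pow (n := p) hp.out.pos ?_
    have h2 : δ' ^ p = ((d * t ^ (-(p * j)) : F) : Om) := by
      rw [IntermediateField.coe_mul, Un_zpow, H.dd, hδ', mul_pow]
      congr 1
      rw [← zpow_natCast, ← zpow_mul]
      congr 1
      ring
    rw [h2, vl_up hv (mul_ne_zero hd0 (zpow_ne_zero _ ht0)), vl_mul v _ _ hd0
      (zpow_ne_zero _ ht0), vl_zpow v _ ht0, hj, ht]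
    ring
  have hfix : ∀ τ ∈ F.fixingSubgroup, ∀ n : ℤ, τ ((t : Om) ^ n) = (t : Om) ^ n :=
    fun τ hτ n => by rw [map_zpow₀, Un_fix hτ]
  have hδ'τ : ∀ τ ∈ F.fixingSubgroup, τ δ' = zt ^ (h τ).val * δ' := fun τ hτ => by
    rw [hδ', map_mul, hfix τ hτ, H.hd τ hτ, mul_assoc]
  by_contra hnd
  set n : ℤ := vl F v k / p with hn
  have hp0 : (p : ℤ) ≠ 0 := by exact_mod_cast hp.out.ne_zero
  have hpp : (0 : ℤ) < p := by exact_mod_cast hp.out.pos
  have hr : 0 < vl F v k - p * n ∧ vl F v k - p * n < p := by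
    have h3 := Int.emod_nonneg (vl F v k) hp0
    have h4 := Int.emod_lt_of_pos (vl F v k) hpp
    have h5 := Int.mul_ediv_add_emod (vl F v k) p
    have h6 : vl F v k % p ≠ 0 := fun h7 => hnd (Int.dvd_of_emod_eq_zero h7)
    constructor
    · have : 0 < vl F v k % p := lt_of_le_of_ne h3 (Ne.symm h6)
      linarith
    · linarith
  obtain ⟨hub1, hub2⟩ := H.ub Q hQ hv.2.1 hpQ
  set u : Om := (k : Om) * (b ^ p)⁻¹ with hu
  have hu0 : u ≠ 0 := hub2.ne_zero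
  have hbp : b ^ p = (k : Om) * u⁻¹ := by
    have h3 : b ^ p ≠ 0 := pow_ne_zero _ H.bne
    have h4 : (k : Om) ≠ 0 := Un_ne hk0
    rw [hu, mul_inv, inv_inv, mul_inv_cancel_left₀ h4]
  have hpow : ∀ m : ℤ, (b * (t : Om) ^ (-m)) ^ p = ((k * t ^ (-(p * m)) : F) : Om) * u⁻¹ := by
    intro m
    rw [IntermediateField.coe_mul, Un_zpow, mul_pow, hbp, ← zpow_natCast ((t : Om) ^ (-m)),
      ← zpow_mul, mul_right_comm]
    congr 2
    ring_nf
  set b' : Om := b * (t : Om) ^ (-n) with hb'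
  have hb'm : MP Q b' := by
    refine MP.of_pow (n := p) ?_
    rw [hpow]
    refine MP.mul_right ?_ hub2.inv.1
    rw [mp_vl hv (mul_ne_zero hk0 (zpow_ne_zero _ ht0)), vl_mul v _ _ hk0
      (zpow_ne_zero _ ht0), vl_zpow v _ ht0, ht]
    linarith [hr.1]
  obtain ⟨a, ha, ham⟩ := Un_four hζ hztF hh hne hδ'0 hδ'τ (β := b') (fun τ hτ h0 => by
    rw [hb', map_mul, hfix τ hτ, H.b0 τ hτ h0])
  have ham' := ham Q hQ hpU hδ'U (fun τ hτ => by
    have h3 : τ b' = b' * (τ b * b⁻¹) := by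
      rw [hb', map_mul, hfix τ hτ]
      have := H.bne
      field_simp
    rw [h3]
    exact MP.mul_right hb'm (hub1 τ hτ).1)
  have h7 : VP Q (b' / t) := by
    have h8 : b' / t = ∑ i, ((a i : Om) / t) * δ' ^ i.val := by
      rw [ha, Finset.sum_div]
      exact Finset.sum_congr rfl fun i _ => by rw [div_mul_eq_mul_div]
    rw [h8]
    exact VP.sum _ _ fun i _ => VP.mul (Un_div hv ht0 ht (ham' i)) (hδ'U.1.pow _)
  have h8 : b' / t = b * (t : Om) ^ (-(n + 1)) := by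
    rw [hb', neg_add, ← sub_eq_add_neg, zpow_sub_one₀ hT]
    rw [div_eq_mul_inv, mul_assoc]
  have h9 : VP Q ((k * t ^ (-(p * (n + 1))) : F) : Om) := by
    have h10 := hpow (n + 1)
    rw [← h8] at h10
    have h11 : ((k * t ^ (-(p * (n + 1))) : F) : Om) = (b' / t) ^ p * u := by
      rw [h10, inv_mul_cancel_right₀ hu0]
    rw [h11]
    exact (h7.pow p).mul hub2.1
  rw [vp_vl hv (mul_ne_zero hk0 (zpow_ne_zero _ ht0)), vl_mul v _ _ hk0
    (zpow_ne_zero _ ht0), vl_zpow v _ ht0, ht] at h9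
  have h12 := hr.2
  have h13 : vl F v k - p * (n + 1) ≥ 0 := by linarith
  linarith

end Pool.Agent.DT
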